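import Pool.Agent.Q151.LQ.MV

set_option autoImplicit false

/-!
# Project LC: mean values of products of absolutely convergent series of exponentials

`mean_series_c` is the complex version of helper151's `Pool.Agent.Q151.LQ.mean_series` (the same proof).
-/

namespace Pool.Agent.Q253.LC

open MeasureTheory Filter Topology Set Complex
open Pool.Agent.Q151.LQ (mean_exp cesaro mn)

/-- the mean value of an absolutely convergent series of exponentials -/
theorem mean_series_c {J : Type} [Countable J] (w a : J → ℝ) (hw : ∀ n, 0 ≤ w n) (hs : Summable w) (F : ℝ → ℂ)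
    (hF : ∀ u : ℝ, F u = ∑' n, (w n : ℂ) * cexp (I * a n * u)) :
    Tendsto (fun U : ℝ => ((1 / U : ℝ) : ℂ) * ∫ u in (0 : ℝ)..U, F u) atTop
      (𝓝 (((∑' n, if a n = 0 then w n else 0 : ℝ)) : ℂ)) := by
  have hn : ∀ (n : J) (u : ℝ), ‖(w n : ℂ) * cexp (I * a n * u)‖ = w n := by
    intro n u
    rw [norm_mul, Complex.norm_real, Real.norm_eq_abs, abs_of_nonneg (hw n)]
    rw [show (I * a n * u : ℂ) = ((a n * u : ℝ) : ℂ) * I from by push_cast; ring]
    rw [Complex.norm_exp_ofReal_mul_I, mul_one]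
  have hint : ∀ U : ℝ, 0 < U → (∫ u in (0 : ℝ)..U, F u) =
      ∑' n, ∫ u in (0 : ℝ)..U, (w n : ℂ) * cexp (I * a n * u) := by
    intro U hU
    have h1 := intervalIntegral.hasSum_integral_of_dominated_convergence (μ := volume) (a := 0) (b := U)
      (F := fun (n : J) (u : ℝ) => (w n : ℂ) * cexp (I * a n * u)) (f := fun u => F u)
      (fun n _ => w n) (fun n => ?_) (fun n => ?_) ?_ ?_ ?_
    · exact h1.tsum_eq.symm
    · exact (by fun_prop : Continuous fun u : ℝ => (w n : ℂ) * cexp (I * a n * u)).aestronglyMeasurable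
    · exact Eventually.of_forall fun u _ => (hn n u).le
    · exact Eventually.of_forall fun u _ => hs
    · exact intervalIntegrable_const
    · refine Eventually.of_forall fun u _ => ?_
      rw [hF u]
      exact (Summable.of_norm (by simpa only [hn] using hs)).hasSum
  have hlim : Tendsto (fun U : ℝ => ∑' n, (w n : ℂ) * (((1 / U : ℝ) : ℂ) * ∫ u in (0 : ℝ)..U, cexp (I * a n * u))) atTop
      (𝓝 (∑' n, (w n : ℂ) * (if a n = 0 then 1 else 0))) := by
    refine tendsto_tsum_of_dominated_convergence (bound := w) hs (fun n => ?_) ?_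
    · exact (mean_exp (a n)).const_mul _
    · filter_upwards [eventually_gt_atTop 0] with U hU n
      rw [norm_mul, Complex.norm_real, Real.norm_eq_abs, abs_of_nonneg (hw n)]
      have h2 : ‖(((1 / U : ℝ) : ℂ) * ∫ u in (0 : ℝ)..U, cexp (I * a n * u))‖ ≤ 1 := by
        rw [norm_mul]
        have h3 : ‖∫ u in (0 : ℝ)..U, cexp (I * a n * u)‖ ≤ 1 * |U - 0| := by
          refine intervalIntegral.norm_integral_le_of_norm_le_const fun u _ => ?_
          rw [show (I * a n * u : ℂ) = ((a n * u : ℝ) : ℂ) * I from by push_cast; ring]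
          rw [Complex.norm_exp_ofReal_mul_I]
        rw [sub_zero, one_mul, abs_of_pos hU] at h3
        rw [Complex.norm_real, Real.norm_eq_abs, abs_of_pos (by positivity)]
        calc 1 / U * ‖∫ u in (0 : ℝ)..U, cexp (I * a n * u)‖ ≤ 1 / U * U := by gcongr
          _ = 1 := by field_simp
      calc w n * _ ≤ w n * 1 := mul_le_mul_of_nonneg_left h2 (hw n)
        _ = w n := mul_one _
  have e1 : ((∑' n, if a n = 0 then w n else 0 : ℝ) : ℂ) = ∑' n, (w n : ℂ) * (if a n = 0 then 1 else 0) := by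
    rw [Complex.ofReal_tsum]
    refine tsum_congr fun n => ?_
    split_ifs <;> simp
  rw [e1]
  refine hlim.congr' ?_
  filter_upwards [eventually_gt_atTop 0] with U hU
  rw [hint U hU, ← tsum_mul_left]
  refine tsum_congr fun n => ?_
  rw [intervalIntegral.integral_const_mul]
  ring

/-- the same without countability -/
theorem mean_series_c' {J : Type} (w a : J → ℝ) (hw : ∀ n, 0 ≤ w n) (hs : Summable w) (F : ℝ → ℂ)
    (hF : ∀ u : ℝ, F u = ∑' n, (w n : ℂ) * cexp (I * a n * u)) :
    Tendsto (fun U : ℝ => ((1 / U : ℝ) : ℂ) * ∫ u in (0 : ℝ)..U, F u) atTop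
      (𝓝 (((∑' n, if a n = 0 then w n else 0 : ℝ)) : ℂ)) := by
  have : Countable (Function.support w) := hs.countable_support.to_subtype
  have h := mean_series_c (J := Function.support w) (fun n => w n) (fun n => a n) (fun n => hw n)
    (hs.comp_injective Subtype.val_injective) F (fun u => by
      rw [hF u]
      symm
      refine tsum_subtype_eq_of_support_subset (f := fun n => (w n : ℂ) * cexp (I * a n * u)) ?_
      intro n hn
      rw [Function.mem_support] at hn ⊢
      intro h0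
      apply hn
      rw [h0, Complex.ofReal_zero, zero_mul])
  have e : (∑' n : Function.support w, if a n = 0 then w n else 0) = ∑' n, if a n = 0 then w n else 0 := by
    refine tsum_subtype_eq_of_support_subset (f := fun n => if a n = 0 then w n else 0) ?_
    intro n hn
    rw [Function.mem_support] at hn ⊢
    intro h0
    apply hn
    rw [h0]
    split_ifs <;> rfl
  rw [e] at h
  exact h

/-- the product of absolutely convergent series -/
theorem prod_tsum {J : Type} {k : ℕ} (x : Fin k → J → ℂ) (hx : ∀ l, Summable (fun j => ‖x l j‖)) :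
    Summable (fun t : Fin k → J => ‖∏ l, x l (t l)‖) ∧ ∏ l, ∑' j, x l j = ∑' t : Fin k → J, ∏ l, x l (t l) := by
  induction k with
  | zero =>
    refine ⟨(hasSum_fintype _).summable, ?_⟩
    rw [tsum_fintype, Fintype.sum_unique]
    simp
  | succ k ih =>
    obtain ⟨i1, i2⟩ := ih (fun l => x l.succ) (fun l => hx _)
    have h1 := (hx 0).mul_norm i1
    constructor
    · rw [← (Fin.consEquiv (fun _ => J)).summable_iff]
      refine h1.congr fun z => ?_
      simp only [Function.comp_apply, Fin.consEquiv_apply, Fin.prod_univ_succ, Fin.cons_zero,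
        Fin.cons_succ]
    · rw [Fin.prod_univ_succ, i2, tsum_mul_tsum_of_summable_norm (hx 0) i1,
        ← (Fin.consEquiv (fun _ => J)).tsum_eq]
      refine tsum_congr fun z => ?_
      simp only [Fin.consEquiv_apply, Fin.prod_univ_succ, Fin.cons_zero, Fin.cons_succ]

/-- the weighted number of zero-sum tuples -/
noncomputable def TT {k : ℕ} (w : Fin k → ℝ → ℝ) : ℝ := open Classical in
  ∑' s : Fin k → ℝ, if ∑ l, s l = 0 then ∏ l, w l (s l) else 0

/-- the series -/
noncomputable def SS (w : ℝ → ℝ) (u : ℝ) : ℂ := ∑' γ : ℝ, (w γ : ℂ) * cexp (I * γ * u)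

lemma term_norm {w : ℝ → ℝ} (hw : ∀ γ, 0 ≤ w γ) (γ u : ℝ) : ‖(w γ : ℂ) * cexp (I * γ * u)‖ = w γ := by
  rw [norm_mul, Complex.norm_real, Real.norm_eq_abs, abs_of_nonneg (hw γ)]
  rw [show (I * γ * u : ℂ) = ((γ * u : ℝ) : ℂ) * I from by push_cast; ring]
  rw [Complex.norm_exp_ofReal_mul_I, mul_one]

lemma SS_norm {w : ℝ → ℝ} (hw : ∀ γ, 0 ≤ w γ) (hs : Summable w) (u : ℝ) : ‖SS w u‖ ≤ ∑' γ, w γ := by
  unfold SS
  refine (norm_tsum_le_tsum_norm (by simpa only [term_norm hw] using hs)).trans ?_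
  rw [tsum_congr fun γ => term_norm hw γ u]

lemma SS_cont {w : ℝ → ℝ} (hw : ∀ γ, 0 ≤ w γ) (hs : Summable w) : Continuous (SS w) := by
  unfold SS
  exact continuous_tsum (fun γ => by fun_prop) hs fun γ u => (term_norm hw γ u).le

theorem mean_prod {k : ℕ} (w : Fin k → ℝ → ℝ) (hw : ∀ l γ, 0 ≤ w l γ) (hs : ∀ l, Summable (w l)) :
    Tendsto (fun U : ℝ => ((1 / U : ℝ) : ℂ) * ∫ u in (0 : ℝ)..U, ∏ l, SS (w l) u) atTop (𝓝 ((TT w : ℝ) : ℂ)) := by
  classical
  have hsum : Summable (fun t : Fin k → ℝ => ∏ l, w l (t l)) := by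
    have h1 := (prod_tsum (fun (l : Fin k) (γ : ℝ) => ((w l γ : ℝ) : ℂ)) (fun l => by
      refine (hs l).congr fun γ => ?_
      rw [Complex.norm_real, Real.norm_eq_abs, abs_of_nonneg (hw l γ)])).1
    refine h1.congr fun t => ?_
    rw [← Complex.ofReal_prod, Complex.norm_real, Real.norm_eq_abs,
      abs_of_nonneg (Finset.prod_nonneg fun l _ => hw l _)]
  have h := mean_series_c' (J := Fin k → ℝ) (fun t => ∏ l, w l (t l)) (fun t => ∑ l, t l)
    (fun t => Finset.prod_nonneg fun l _ => hw l _) hsum (fun u => ∏ l, SS (w l) u) (fun u => by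
      have h2 := (prod_tsum (fun (l : Fin k) (γ : ℝ) => (w l γ : ℂ) * cexp (I * γ * u)) (fun l => by
        simpa only [term_norm (hw l)] using hs l)).2
      unfold SS
      rw [h2]
      refine tsum_congr fun t => ?_
      rw [Finset.prod_mul_distrib, ← Complex.exp_sum, Complex.ofReal_prod]
      congr 2
      rw [Complex.ofReal_sum, Finset.mul_sum, Finset.sum_mul])
  have e : (∑' t : Fin k → ℝ, if ∑ l, t l = 0 then ∏ l, w l (t l) else 0) = TT w := by
    unfold TT
    refine tsum_congr fun t => ?_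
    split_ifs <;> rfl
  rw [e] at h
  exact h

/-- the product of functions close to the series -/
theorem corr {k : ℕ} (w : Fin k → ℝ → ℝ) (hw : ∀ l γ, 0 ≤ w l γ) (hs : ∀ l, Summable (w l)) (F : Fin k → ℝ → ℂ)
    (hFc : ∀ l, Continuous (F l))
    (hF : ∀ l, ∃ C : ℝ, ∀ u : ℝ, 0 ≤ u → ‖F l u - SS (w l) u‖ ≤ C * Real.exp (-(u / 4))) :
    Tendsto (fun U : ℝ => ((1 / U : ℝ) : ℂ) * ∫ u in (0 : ℝ)..U, ∏ l, F l u) atTop (𝓝 ((TT w : ℝ) : ℂ)) := by
  classical
  choose C hC using hF
  set B : ℝ := 1 + ∑ l, (|C l| + ∑' γ, w l γ) with hB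
  have hwt : ∀ l, 0 ≤ ∑' γ, w l γ := fun l => tsum_nonneg (hw l)
  have hB1 : 1 ≤ B := by
    have : 0 ≤ ∑ l, (|C l| + ∑' γ, w l γ) := Finset.sum_nonneg fun l _ => add_nonneg (abs_nonneg _) (hwt l)
    linarith
  have hBl : ∀ l, |C l| + ∑' γ, w l γ ≤ B := by
    intro l
    have := Finset.single_le_sum (f := fun l => |C l| + ∑' γ, w l γ)
      (fun l _ => add_nonneg (abs_nonneg _) (hwt l)) (Finset.mem_univ l)
    linarith
  have hexp : ∀ u : ℝ, 0 ≤ u → Real.exp (-(u / 4)) ≤ 1 := fun u hu => Real.exp_le_one_iff.2 (by linarith)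
  have hS : ∀ l u, ‖SS (w l) u‖ ≤ B := fun l u =>
    (SS_norm (hw l) (hs l) u).trans (le_trans (by have := abs_nonneg (C l); linarith) (hBl l))
  have hFb : ∀ l u, 0 ≤ u → ‖F l u‖ ≤ B := by
    intro l u hu
    have h1 : ‖F l u‖ ≤ ‖F l u - SS (w l) u‖ + ‖SS (w l) u‖ := norm_le_norm_sub_add _ _
    have h2 := hC l u hu
    have h3 : C l * Real.exp (-(u / 4)) ≤ |C l| := by
      calc C l * Real.exp (-(u / 4)) ≤ |C l| * Real.exp (-(u / 4)) :=
            mul_le_mul_of_nonneg_right (le_abs_self _) (Real.exp_pos _).le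
        _ ≤ |C l| * 1 := mul_le_mul_of_nonneg_left (hexp u hu) (abs_nonneg _)
        _ = |C l| := mul_one _
    have h4 := SS_norm (hw l) (hs l) u
    have h5 := hBl l
    linarith
  -- the difference of the products
  have hD : ∀ (S : Finset (Fin k)) (u : ℝ), 0 ≤ u →
      ‖∏ l ∈ S, F l u - ∏ l ∈ S, SS (w l) u‖ ≤ (∑ l ∈ S, |C l|) * B ^ S.card * Real.exp (-(u / 4)) := by
    intro S u hu
    induction S using Finset.induction_on with
    | empty => simp
    | insert a S ha ih =>
      rw [Finset.prod_insert ha, Finset.prod_insert ha, Finset.sum_insert ha, Finset.card_insert_of_notMem ha]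
      have e : F a u * ∏ l ∈ S, F l u - SS (w a) u * ∏ l ∈ S, SS (w l) u =
          (F a u - SS (w a) u) * ∏ l ∈ S, F l u + SS (w a) u * (∏ l ∈ S, F l u - ∏ l ∈ S, SS (w l) u) := by ring
      rw [e]
      have hP : ‖∏ l ∈ S, F l u‖ ≤ B ^ S.card := by
        rw [norm_prod]
        calc ∏ l ∈ S, ‖F l u‖ ≤ ∏ _l ∈ S, B := Finset.prod_le_prod (fun l _ => norm_nonneg _) fun l _ => hFb l u hu
          _ = B ^ S.card := by rw [Finset.prod_const]
      have hBp : 0 < B ^ S.card := by positivity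
      have hE := Real.exp_pos (-(u / 4))
      have h1 : ‖F a u - SS (w a) u‖ ≤ |C a| * Real.exp (-(u / 4)) :=
        (hC a u hu).trans (mul_le_mul_of_nonneg_right (le_abs_self _) hE.le)
      have hsc : 0 ≤ ∑ l ∈ S, |C l| := Finset.sum_nonneg fun l _ => abs_nonneg _
      calc ‖(F a u - SS (w a) u) * ∏ l ∈ S, F l u + SS (w a) u * (∏ l ∈ S, F l u - ∏ l ∈ S, SS (w l) u)‖
          ≤ ‖(F a u - SS (w a) u) * ∏ l ∈ S, F l u‖ + ‖SS (w a) u * (∏ l ∈ S, F l u - ∏ l ∈ S, SS (w l) u)‖ :=
            norm_add_le _ _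
        _ = ‖F a u - SS (w a) u‖ * ‖∏ l ∈ S, F l u‖ + ‖SS (w a) u‖ * ‖∏ l ∈ S, F l u - ∏ l ∈ S, SS (w l) u‖ := by
            rw [norm_mul, norm_mul]
        _ ≤ (|C a| * Real.exp (-(u / 4))) * B ^ S.card + B * ((∑ l ∈ S, |C l|) * B ^ S.card * Real.exp (-(u / 4))) := by
            refine add_le_add (mul_le_mul h1 hP (norm_nonneg _) (by positivity)) ?_
            exact mul_le_mul (hS a u) ih (norm_nonneg _) (by linarith)
        _ ≤ (|C a| + ∑ l ∈ S, |C l|) * B ^ (S.card + 1) * Real.exp (-(u / 4)) := by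
            rw [pow_succ]
            have h5 : |C a| * Real.exp (-(u / 4)) * B ^ S.card ≤ |C a| * Real.exp (-(u / 4)) * B ^ S.card * B := by
              have : 0 ≤ |C a| * Real.exp (-(u / 4)) * B ^ S.card := by positivity
              nlinarith
            nlinarith
  have hSc : Continuous (fun u => ∏ l, SS (w l) u) := continuous_finsetProd _ fun l _ => SS_cont (hw l) (hs l)
  have hPc : Continuous (fun u => ∏ l, F l u) := continuous_finsetProd _ fun l _ => hFc l
  obtain ⟨A, hA⟩ : ∃ A : ℝ, A = (∑ l, |C l|) * B ^ (Finset.univ : Finset (Fin k)).card := ⟨_, rfl⟩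
  have hA0 : 0 ≤ A := by
    rw [hA]
    exact mul_nonneg (Finset.sum_nonneg fun l _ => abs_nonneg _) (by positivity)
  have hDA : ∀ u : ℝ, 0 ≤ u → ‖∏ l, F l u - ∏ l, SS (w l) u‖ ≤ A * Real.exp (-(u / 4)) := by
    intro u hu
    rw [hA]
    exact hD Finset.univ u hu
  -- the mean of the difference
  have hmean : Tendsto (fun U : ℝ => ((1 / U : ℝ) : ℂ) * ∫ u in (0 : ℝ)..U, (∏ l, F l u - ∏ l, SS (w l) u)) atTop
      (𝓝 0) := by
    have hb : ∀ U : ℝ, 0 < U → ‖((1 / U : ℝ) : ℂ) * ∫ u in (0 : ℝ)..U, (∏ l, F l u - ∏ l, SS (w l) u)‖ ≤ 4 * A / U := by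
      intro U hU
      have h1 : ‖∫ u in (0 : ℝ)..U, (∏ l, F l u - ∏ l, SS (w l) u)‖ ≤ ∫ u in (0 : ℝ)..U, A * Real.exp (-(u / 4)) := by
        refine intervalIntegral.norm_integral_le_of_norm_le hU.le ?_ ?_
        · exact Eventually.of_forall fun u hu => hDA u hu.1.le
        · exact (by fun_prop : Continuous fun u : ℝ => A * Real.exp (-(u / 4))).intervalIntegrable _ _
      have h2 : ∫ u in (0 : ℝ)..U, A * Real.exp (-(u / 4)) ≤ 4 * A := by
        have h3 : ∫ u in (0 : ℝ)..U, A * Real.exp (-(u / 4)) = A * (4 * (1 - Real.exp (-(U / 4)))) := by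
          rw [intervalIntegral.integral_const_mul]
          congr 1
          have h4 : ∀ u ∈ Set.uIcc (0 : ℝ) U, HasDerivAt (fun u : ℝ => -4 * Real.exp (-(u / 4))) (Real.exp (-(u / 4))) u := by
            intro u _
            have h5 : HasDerivAt (fun u : ℝ => -(u / 4)) (-(1 / 4)) u := ((hasDerivAt_id u).div_const 4).neg
            have h6 := (h5.exp).const_mul (-4 : ℝ)
            have e : -4 * (Real.exp (-(u / 4)) * -(1 / 4)) = Real.exp (-(u / 4)) := by ring
            rw [e] at h6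
            exact h6
          rw [intervalIntegral.integral_eq_sub_of_hasDerivAt h4
            ((by fun_prop : Continuous fun u : ℝ => Real.exp (-(u / 4))).intervalIntegrable _ _)]
          rw [zero_div, neg_zero, Real.exp_zero]
          ring
        rw [h3]
        have := Real.exp_pos (-(U / 4))
        nlinarith
      rw [norm_mul, Complex.norm_real, Real.norm_of_nonneg (by positivity)]
      calc 1 / U * ‖∫ u in (0 : ℝ)..U, (∏ l, F l u - ∏ l, SS (w l) u)‖ ≤ 1 / U * (4 * A) :=
            mul_le_mul_of_nonneg_left (h1.trans h2) (by positivity)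
        _ = 4 * A / U := by ring
    refine squeeze_zero_norm' ?_ (tendsto_const_nhds.div_atTop tendsto_id : Tendsto (fun U : ℝ => 4 * A / U) atTop (𝓝 0))
    filter_upwards [eventually_gt_atTop 0] with U hU using hb U hU
  have h3 := (mean_prod w hw hs).add hmean
  rw [add_zero] at h3
  refine h3.congr fun U => ?_
  have i1 : IntervalIntegrable (fun u => ∏ l, SS (w l) u) volume 0 U := hSc.intervalIntegrable _ _
  have i2 : IntervalIntegrable (fun u => ∏ l, F l u - ∏ l, SS (w l) u) volume 0 U := (hPc.sub hSc).intervalIntegrable _ _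
  rw [← mul_add, ← intervalIntegral.integral_add i1 i2]
  congr 1
  refine intervalIntegral.integral_congr fun u _ => ?_
  ring

end Pool.Agent.Q253.LC
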