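import Pool.Agent.Q253.LC.C1
import Pool.Agent.Q253.LM.F1

set_option autoImplicit false

/-!
# Project LC: bounded mean square and the Riemann hypothesis for one character; correlations for characters
-/

namespace Pool.Agent.Q253.LC

open MeasureTheory Complex Filter Topology Set
open DirichletCharacter (LFunction completedLFunction)
open Pool.Agent.Q14.LQ (Mx Mx_diff Mx_ne Mx_ne' Mx_log LF_ne LF_an HB HB_bc bc ES ES_cont DS DS_bc EC_eq LT_ES
  LT_intble ode_ne_zero int_of_bound lp_int lp_diff)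
open Pool.Agent.Q253.LQ (GRHc mc EC)

variable {q : ℕ} [NeZero q]

lemma EC_cont (χ : DirichletCharacter ℂ q) : Continuous (EC χ) := by
  have e : EC χ = fun u => ES (bc χ) u - (open Classical in if χ = 1 then ((8 / 3 * Real.exp (u / 2) : ℝ) : ℂ) else 0) := by
    funext u
    exact EC_eq χ u
  rw [e]
  refine (ES_cont (HB_bc χ)).sub ?_
  by_cases h : χ = 1
  · simp only [if_pos h]
    fun_prop
  · simp only [if_neg h]
    exact continuous_const

open Classical in
/-- `1` for the principal character -/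
noncomputable def pp (χ : DirichletCharacter ℂ q) : ℂ := if χ = 1 then 1 else 0

lemma EC_pp (χ : DirichletCharacter ℂ q) (u : ℝ) :
    EC χ u = ES (bc χ) u - pp χ * ((8 / 3 * Real.exp (u / 2) : ℝ) : ℂ) := by
  rw [EC_eq]
  unfold pp
  by_cases h : χ = 1
  · rw [if_pos h, if_pos h, one_mul]
  · rw [if_neg h, if_neg h, zero_mul]

/-- the Laplace transform of a complex function -/
noncomputable def lc (f : ℝ → ℂ) (z : ℂ) : ℂ := Pool.Agent.Q14.LQ.lp (fun u => (f u).re) z +
  I * Pool.Agent.Q14.LQ.lp (fun u => (f u).im) z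

lemma lc_eq {f : ℝ → ℂ} (hf : Continuous f) {z : ℂ}
    (h : IntegrableOn (fun u => ‖f u‖ * Real.exp (-(z.re * u))) (Ioi 0)) :
    lc f z = ∫ u in Ioi (0 : ℝ), f u * cexp (-z * u) := by
  have c1 : Continuous (fun u => (f u).re) := Complex.continuous_re.comp hf
  have c2 : Continuous (fun u => (f u).im) := Complex.continuous_im.comp hf
  have h1 : IntegrableOn (fun u => |(f u).re| * Real.exp (-(z.re * u))) (Ioi 0) := by
    refine Integrable.mono' h ((continuous_abs.comp c1).mul (by fun_prop)).aestronglyMeasurable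
      (Eventually.of_forall fun u => ?_)
    rw [Real.norm_of_nonneg (mul_nonneg (abs_nonneg _) (Real.exp_pos _).le)]
    exact mul_le_mul_of_nonneg_right (abs_re_le_norm _) (Real.exp_pos _).le
  have h2 : IntegrableOn (fun u => |(f u).im| * Real.exp (-(z.re * u))) (Ioi 0) := by
    refine Integrable.mono' h ((continuous_abs.comp c2).mul (by fun_prop)).aestronglyMeasurable
      (Eventually.of_forall fun u => ?_)
    rw [Real.norm_of_nonneg (mul_nonneg (abs_nonneg _) (Real.exp_pos _).le)]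
    exact mul_le_mul_of_nonneg_right (abs_im_le_norm _) (Real.exp_pos _).le
  unfold lc Pool.Agent.Q14.LQ.lp
  rw [← integral_const_mul, ← integral_add (lp_int c1 h1) ((lp_int c2 h2).const_mul I)]
  refine setIntegral_congr_fun measurableSet_Ioi fun u _ => ?_
  have e : f u * cexp (-z * u) = (((f u).re : ℂ) + ((f u).im : ℂ) * I) * cexp (-z * u) := by
    rw [re_add_im (f u)]
  refine Eq.trans ?_ e.symm
  ring

lemma lc_diff {f : ℝ → ℂ} (hf : Continuous f) {a : ℝ}
    (h : ∀ σ : ℝ, a < σ → IntegrableOn (fun u => ‖f u‖ * Real.exp (-(σ * u))) (Ioi 0)) {z : ℂ} (hz : a < z.re) :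
    DifferentiableAt ℂ (lc f) z := by
  have c1 : Continuous (fun u => (f u).re) := Complex.continuous_re.comp hf
  have c2 : Continuous (fun u => (f u).im) := Complex.continuous_im.comp hf
  have h1 : ∀ σ : ℝ, a < σ → IntegrableOn (fun u => |(f u).re| * Real.exp (-(σ * u))) (Ioi 0) := by
    intro σ hσ
    refine Integrable.mono' (h σ hσ) ((continuous_abs.comp c1).mul (by fun_prop)).aestronglyMeasurable
      (Eventually.of_forall fun u => ?_)
    rw [Real.norm_of_nonneg (mul_nonneg (abs_nonneg _) (Real.exp_pos _).le)]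
    exact mul_le_mul_of_nonneg_right (abs_re_le_norm _) (Real.exp_pos _).le
  have h2 : ∀ σ : ℝ, a < σ → IntegrableOn (fun u => |(f u).im| * Real.exp (-(σ * u))) (Ioi 0) := by
    intro σ hσ
    refine Integrable.mono' (h σ hσ) ((continuous_abs.comp c2).mul (by fun_prop)).aestronglyMeasurable
      (Eventually.of_forall fun u => ?_)
    rw [Real.norm_of_nonneg (mul_nonneg (abs_nonneg _) (Real.exp_pos _).le)]
    exact mul_le_mul_of_nonneg_right (abs_im_le_norm _) (Real.exp_pos _).le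
  exact (lp_diff c1 h1 hz).add ((lp_diff c2 h2 hz).const_mul I)

/-- the Laplace transform of the prime sum -/
theorem LT_EC (χ : DirichletCharacter ℂ q) {z : ℂ} (hz : 1 < z.re) :
    ∫ u in Ioi (0 : ℝ), EC χ u * cexp (-z * u) =
      (2 / (1 - z ^ 2) * DS (bc χ) z - 1 / (1 - z) * DS (bc χ) 1) - pp χ * (8 / 3 / (z - 1 / 2)) := by
  have h1 : z ≠ 1 := by
    rintro rfl
    simp at hz
  have hre : (-(z - 1 / 2)).re < 0 := by
    rw [Complex.neg_re, Complex.sub_re]
    have : ((1 : ℂ) / 2).re = 1 / 2 := by norm_num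
    rw [this]
    linarith
  have i1 := (integrableOn_exp_mul_complex_Ioi hre 0).const_mul (pp χ * (8 / 3 : ℂ))
  have i2 := LT_intble (HB_bc χ) (z := z) (by linarith)
  have e : ∫ u in Ioi (0 : ℝ), EC χ u * cexp (-z * u) = ∫ u in Ioi (0 : ℝ), (ES (bc χ) u * cexp (-z * u) -
      (pp χ * (8 / 3 : ℂ)) * cexp (-(z - 1 / 2) * u)) := by
    refine setIntegral_congr_fun measurableSet_Ioi fun u _ => ?_
    show EC χ u * cexp (-z * u) = _
    rw [EC_pp]
    have e1 : cexp (-(z - 1 / 2) * u) = cexp ((u / 2 : ℝ) : ℂ) * cexp (-z * u) := by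
      rw [← Complex.exp_add]
      congr 1
      push_cast
      ring
    rw [e1, Complex.ofReal_mul, Complex.ofReal_exp]
    push_cast
    ring
  rw [e, integral_sub i2 i1, integral_const_mul, LT_ES (HB_bc χ) (by linarith) h1,
    integral_exp_mul_complex_Ioi hre]
  congr 1
  rw [Complex.ofReal_zero, mul_zero, Complex.exp_zero, neg_div_neg_eq]
  ring

theorem key_chi (χ : DirichletCharacter ℂ q) {z : ℂ} (hz : 1 < z.re) :
    (1 - z ^ 2) * (-∫ u in Ioi (0 : ℝ), EC χ u * cexp (-z * u)) * Mx χ (1 / 2 + z) =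
      2 * deriv (fun z => Mx χ (1 / 2 + z)) z -
        (pp χ * (8 / 3 * (z + 1 / 2)) + (1 + z) * logDeriv (LFunction χ) (1 / 2 + 1)) * Mx χ (1 / 2 + z) := by
  have hre : 1 < (1 / 2 + z).re := by
    rw [Complex.add_re]
    have : ((1 : ℂ) / 2).re = 1 / 2 := by norm_num
    rw [this]
    linarith
  have hd : deriv (fun z => Mx χ (1 / 2 + z)) z = deriv (Mx χ) (1 / 2 + z) := by
    have h1 : HasDerivAt (fun z : ℂ => 1 / 2 + z) 1 z := (hasDerivAt_id z).const_add (1 / 2)
    have h2 := HasDerivAt.comp (h₂ := Mx χ) z (Mx_diff χ (1 / 2 + z)).hasDerivAt h1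
    have h3 : HasDerivAt (fun z => Mx χ (1 / 2 + z)) (deriv (Mx χ) (1 / 2 + z) * 1) z := h2
    rw [h3.deriv, mul_one]
  have hM : Mx χ (1 / 2 + z) ≠ 0 := Mx_ne' χ hre
  have hld : deriv (Mx χ) (1 / 2 + z) = (logDeriv (LFunction χ) (1 / 2 + z) + pp χ * (1 / (z - 1 / 2))) *
      Mx χ (1 / 2 + z) := by
    have h2 := Mx_log χ hre
    rw [logDeriv_apply, div_eq_iff hM] at h2
    rw [h2]
    congr 2
    unfold pp
    have e : 1 / 2 + z - 1 = z - 1 / 2 := by ring
    by_cases h : χ = 1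
    · rw [if_pos h, if_pos h, e, one_mul]
    · rw [if_neg h, if_neg h, zero_mul]
  rw [hd, hld, LT_EC χ hz, DS_bc χ (z := z) (by linarith), DS_bc χ (z := 1) (by norm_num)]
  have n1 : z - 1 / 2 ≠ 0 := by
    intro h
    have := congrArg Complex.re h
    rw [Complex.sub_re] at this
    norm_num at this
    linarith
  have n2 : 1 - z ≠ 0 := by
    intro h
    have := congrArg Complex.re h
    simp at this
    linarith
  have n3 : 1 + z ≠ 0 := by
    intro h
    have := congrArg Complex.re h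
    simp at this
    linarith
  have n4 : 1 - z ^ 2 ≠ 0 := by
    have : 1 - z ^ 2 = (1 - z) * (1 + z) := by ring
    rw [this]
    exact mul_ne_zero n2 n3
  generalize logDeriv (LFunction χ) (1 / 2 + z) = S
  generalize logDeriv (LFunction χ) (1 / 2 + 1) = T
  generalize Mx χ (1 / 2 + z) = X
  generalize pp χ = P
  have e5 : (1 : ℂ) / (1 - z) = (1 + z) / (1 - z ^ 2) := by
    have : 1 - z ^ 2 = (1 - z) * (1 + z) := by ring
    rw [this]
    field_simp
  rw [e5]
  set w : ℂ := z - 1 / 2 with hw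
  have hz' : z = w + 1 / 2 := by rw [hw]; ring
  have e7 : (1 - z ^ 2) * (-(2 / (1 - z ^ 2) * -S - (1 + z) / (1 - z ^ 2) * -T - P * (8 / 3 / w))) =
      2 * S - (1 + z) * T + P * ((1 - z ^ 2) * (8 / 3 / w)) := by
    field_simp
    ring
  rw [e7]
  have e8 : (1 - z ^ 2) * (8 / 3 / w) = 2 * (1 / w) - 8 / 3 * (z + 1 / 2) := by
    rw [hz']
    field_simp
    ring
  rw [e8]
  ring

/-- boundedness in the mean implies the Riemann hypothesis for the character -/
theorem grh_chi {χ : DirichletCharacter ℂ q} (h : ∃ C : ℝ, ∀ᶠ U : ℝ in atTop, ∫ u in (0 : ℝ)..U, ‖EC χ u‖ ≤ C * U) :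
    GRHc χ := by
  intro s hs1 hs2 h0
  obtain ⟨C, hC⟩ := h
  have hc := EC_cont χ
  have hi : ∀ σ : ℝ, 0 < σ → IntegrableOn (fun u => ‖EC χ u‖ * Real.exp (-(σ * u))) (Ioi 0) := fun σ hσ =>
    int_of_bound (continuous_norm.comp hc) (fun u => norm_nonneg _) hC hσ
  set E : ℂ → ℂ := fun z => Mx χ (1 / 2 + z) with hE
  have hEd : Differentiable ℂ E := (Mx_diff χ).comp (by fun_prop : Differentiable ℂ (fun z : ℂ => 1 / 2 + z))
  set Hh : ℂ → ℂ := fun z => pp χ * (8 / 3 * (z + 1 / 2)) + (1 + z) * logDeriv (LFunction χ) (1 / 2 + 1) with hH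
  have hHd : Differentiable ℂ Hh := by rw [hH]; fun_prop
  have hopen : IsOpen {z : ℂ | 0 < z.re} := isOpen_lt continuous_const Complex.continuous_re
  have hconn : IsPreconnected {z : ℂ | 0 < z.re} := (convex_halfSpace_re_gt 0).isPreconnected
  have step : ∀ z : ℂ, 0 < z.re → (1 - z ^ 2) * (-lc (EC χ) z) * E z = 2 * deriv E z - Hh z * E z := by
    intro z hz
    have hA1 : AnalyticOnNhd ℂ (fun z => (1 - z ^ 2) * (-lc (EC χ) z) * E z) {z : ℂ | 0 < z.re} := by
      refine DifferentiableOn.analyticOnNhd (fun z hz => DifferentiableAt.differentiableWithinAt ?_) hopen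
      have hz' : 0 < z.re := hz
      exact ((by fun_prop : DifferentiableAt ℂ (fun z : ℂ => 1 - z ^ 2) z).mul (lc_diff hc hi hz').neg).mul (hEd z)
    have hA2 : AnalyticOnNhd ℂ (fun z => 2 * deriv E z - Hh z * E z) {z : ℂ | 0 < z.re} := by
      refine DifferentiableOn.analyticOnNhd (fun z hz => DifferentiableAt.differentiableWithinAt ?_) hopen
      exact ((hEd.deriv z).const_mul 2).sub ((hHd z).mul (hEd z))
    have h2 : (2 : ℂ) ∈ {z : ℂ | 0 < z.re} := by
      show (0 : ℝ) < (2 : ℂ).re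
      norm_num
    refine hA1.eqOn_of_preconnected_of_eventuallyEq hA2 hconn h2 ?_ hz
    have h3 : {z : ℂ | 1 < z.re} ∈ 𝓝 (2 : ℂ) :=
      (isOpen_lt continuous_const Complex.continuous_re).mem_nhds (by
        show (1 : ℝ) < (2 : ℂ).re
        norm_num)
    filter_upwards [h3] with z hz
    have hz' : 1 < z.re := hz
    rw [lc_eq hc (hi _ (by linarith))]
    exact key_chi χ hz'
  have hz0 : 0 < (s - 1 / 2).re := by
    rw [Complex.sub_re]
    have : ((1 : ℂ) / 2).re = 1 / 2 := by norm_num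
    rw [this]
    linarith
  have hA : AnalyticAt ℂ (fun z => ((1 - z ^ 2) * (-lc (EC χ) z) + Hh z) / 2) (s - 1 / 2) := by
    refine DifferentiableOn.analyticAt (s := {z : ℂ | 0 < z.re}) (fun z hz => ?_) (hopen.mem_nhds hz0)
    have hz' : 0 < z.re := hz
    exact ((((by fun_prop : DifferentiableAt ℂ (fun z : ℂ => 1 - z ^ 2) z).mul (lc_diff hc hi hz').neg).add
      (hHd z)).div_const 2).differentiableWithinAt
  have hne := ode_ne_zero hEd ⟨1, Mx_ne' χ (by norm_num)⟩ hA (by
    filter_upwards [hopen.mem_nhds hz0] with w hw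
    have h1 := step w hw
    linear_combination (-1 / 2 : ℂ) * h1)
  apply hne
  have hs : s ≠ 1 := by
    rintro rfl
    simp at hs2
  have e : 1 / 2 + (s - 1 / 2) = s := by ring
  rw [hE]
  simp only
  rw [e]
  exact (Mx_ne χ hs).2 h0

/-- the weights of a character -/
noncomputable def wc (χ : DirichletCharacter ℂ q) (γ : ℝ) : ℝ := (mc χ γ : ℝ) * (2 / (1 + γ ^ 2))

lemma wc_nonneg (χ : DirichletCharacter ℂ q) (γ : ℝ) : 0 ≤ wc χ γ := by unfold wc; positivity

lemma wc_sm {χ : DirichletCharacter ℂ q} (hG : GRHc χ) : Summable (wc χ) := by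
  refine (((Pool.Agent.Q151.LQ.t_PF q χ hG).1).mul_left 2).congr fun γ => ?_
  unfold wc
  ring

lemma EC_SS {χ : DirichletCharacter ℂ q} (hG : GRHc χ) :
    ∃ C : ℝ, ∀ u : ℝ, 0 ≤ u → ‖-EC χ u - SS (wc χ) u‖ ≤ C * Real.exp (-(u / 4)) := by
  obtain ⟨C, hC⟩ := Pool.Agent.Q14.LQ.t_EF Pool.Agent.Q151.LQ.t_PF q χ hG
  refine ⟨C, fun u hu => ?_⟩
  have h := hC u hu
  have e : -EC χ u - SS (wc χ) u =
      -(EC χ u + ∑' γ : ℝ, (mc χ γ : ℂ) * ((2 / (1 + γ ^ 2) : ℝ) : ℂ) * cexp (I * γ * u)) := by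
    unfold SS wc
    rw [neg_add, sub_eq_add_neg]
    congr 2
    refine tsum_congr fun γ => ?_
    push_cast
    ring
  rw [e, norm_neg]
  exact h

/-- the correlations -/
theorem corr_chi {k : ℕ} (χ : Fin k → DirichletCharacter ℂ q) (hG : ∀ l, GRHc (χ l)) :
    Tendsto (fun U : ℝ => ((1 / U : ℝ) : ℂ) * ∫ u in (0 : ℝ)..U, ∏ l, (-EC (χ l) u)) atTop
      (𝓝 ((TT (fun l => wc (χ l)) : ℝ) : ℂ)) :=
  corr (fun l => wc (χ l)) (fun l => wc_nonneg (χ l)) (fun l => wc_sm (hG l)) (fun l u => -EC (χ l) u)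
    (fun l => (EC_cont (χ l)).neg) (fun l => EC_SS (hG l))

/-- when is the limit zero -/
theorem TT_zero {k : ℕ} (w : Fin k → ℝ → ℝ) (hw : ∀ l γ, 0 ≤ w l γ) (hs : ∀ l, Summable (w l)) :
    0 ≤ TT w ∧ (TT w = 0 ↔ ¬ ∃ s : Fin k → ℝ, ∑ l, s l = 0 ∧ ∀ l, w l (s l) ≠ 0) := by
  classical
  have hsum : Summable (fun t : Fin k → ℝ => ∏ l, w l (t l)) := by
    have h1 := (prod_tsum (fun (l : Fin k) (γ : ℝ) => ((w l γ : ℝ) : ℂ)) (fun l => by
      refine (hs l).congr fun γ => ?_
      rw [Complex.norm_real, Real.norm_eq_abs, abs_of_nonneg (hw l γ)])).1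
    refine h1.congr fun t => ?_
    rw [← Complex.ofReal_prod, Complex.norm_real, Real.norm_eq_abs,
      abs_of_nonneg (Finset.prod_nonneg fun l _ => hw l _)]
  have e : TT w = ∑' t : Fin k → ℝ, if ∑ l, t l = 0 then ∏ l, w l (t l) else 0 := by
    unfold TT
    refine tsum_congr fun t => ?_
    split_ifs <;> rfl
  have hnn : ∀ t : Fin k → ℝ, 0 ≤ (if ∑ l, t l = 0 then ∏ l, w l (t l) else 0 : ℝ) := by
    intro t
    split_ifs
    · exact Finset.prod_nonneg fun l _ => hw l _
    · exact le_rfl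
  have hsum' : Summable (fun t : Fin k → ℝ => if ∑ l, t l = 0 then ∏ l, w l (t l) else 0) := by
    refine Summable.of_nonneg_of_le hnn (fun t => ?_) hsum
    split_ifs
    · exact le_rfl
    · exact Finset.prod_nonneg fun l _ => hw l _
  rw [e]
  refine ⟨tsum_nonneg hnn, ?_⟩
  have hz : (∑' t : Fin k → ℝ, (if ∑ l, t l = 0 then ∏ l, w l (t l) else 0 : ℝ)) = 0 ↔
      ∀ t : Fin k → ℝ, (if ∑ l, t l = 0 then ∏ l, w l (t l) else 0 : ℝ) = 0 := by
    constructor
    · intro h t
      have h1 := hsum'.le_tsum t (fun j _ => hnn j)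
      exact le_antisymm (h1.trans h.le) (hnn t)
    · intro h
      rw [tsum_congr h, tsum_zero]
  rw [hz]
  constructor
  · rintro h ⟨s, h1, h2⟩
    have h3 := h s
    rw [if_pos h1, Finset.prod_eq_zero_iff] at h3
    obtain ⟨l, -, hl⟩ := h3
    exact h2 l hl
  · intro h t
    by_cases h1 : ∑ l, t l = 0
    · rw [if_pos h1, Finset.prod_eq_zero_iff]
      by_contra hcon
      push Not at hcon
      exact h ⟨t, h1, fun l => hcon l (Finset.mem_univ l)⟩
    · rw [if_neg h1]

end Pool.Agent.Q253.LC
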