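import Pool.Agent.Q253.LC.C2
import Pool.Agent.Q253.LQ.F5

set_option autoImplicit false

/-!
# Project LC: the criteria
-/

namespace Pool.Agent.Q253.LC

open MeasureTheory Complex Filter Topology Set
open scoped ComplexConjugate
open DirichletCharacter (LFunction completedLFunction)
open Pool.Agent.Q253.LQ (GRHc mc EC LIz GRHq)
open Pool.Agent.Q253.CP (half_re1 half_im1 half_ne1 ordNat_iff strip_line)

variable {q : ℕ} [NeZero q]

/-- the mean square -/
noncomputable def ms (χ : DirichletCharacter ℂ q) (U : ℝ) : ℝ := (1 / U) * ∫ u in (0 : ℝ)..U, ‖EC χ u‖ ^ 2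

/-- bounded mean square -/
def BM (χ : DirichletCharacter ℂ q) : Prop := ∃ C : ℝ, ∀ᶠ U : ℝ in atTop, ms χ U ≤ C

lemma EC_bd {χ : DirichletCharacter ℂ q} (hG : GRHc χ) : ∃ B : ℝ, 0 ≤ B ∧ ∀ u : ℝ, 0 ≤ u → ‖EC χ u‖ ≤ B := by
  obtain ⟨C, hC⟩ := EC_SS hG
  refine ⟨|C| + ∑' γ, wc χ γ, add_nonneg (abs_nonneg _) (tsum_nonneg (wc_nonneg χ)), fun u hu => ?_⟩
  have h1 := hC u hu
  have h2 := SS_norm (wc_nonneg χ) (wc_sm hG) u
  have h3 : C * Real.exp (-(u / 4)) ≤ |C| := by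
    calc C * Real.exp (-(u / 4)) ≤ |C| * Real.exp (-(u / 4)) :=
          mul_le_mul_of_nonneg_right (le_abs_self _) (Real.exp_pos _).le
      _ ≤ |C| * 1 := mul_le_mul_of_nonneg_left (Real.exp_le_one_iff.2 (by linarith)) (abs_nonneg _)
      _ = |C| := mul_one _
  have h4 : ‖EC χ u‖ ≤ ‖-EC χ u - SS (wc χ) u‖ + ‖SS (wc χ) u‖ := by
    rw [← norm_neg (EC χ u)]
    exact norm_le_norm_sub_add _ _
  linarith

theorem ms_iff (χ : DirichletCharacter ℂ q) : GRHc χ ↔ BM χ := by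
  have hc := EC_cont χ
  constructor
  · intro hG
    obtain ⟨B, hB0, hB⟩ := EC_bd hG
    refine ⟨B ^ 2, ?_⟩
    filter_upwards [eventually_gt_atTop 0] with U hU
    unfold ms
    have h1 : ∫ u in (0 : ℝ)..U, ‖EC χ u‖ ^ 2 ≤ ∫ _u in (0 : ℝ)..U, B ^ 2 := by
      refine intervalIntegral.integral_mono_on hU.le ((by fun_prop : Continuous fun u => ‖EC χ u‖ ^ 2).intervalIntegrable _ _)
        intervalIntegrable_const fun u hu => ?_
      exact pow_le_pow_left₀ (norm_nonneg _) (hB u hu.1) 2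
    rw [intervalIntegral.integral_const, sub_zero, smul_eq_mul] at h1
    calc 1 / U * ∫ u in (0 : ℝ)..U, ‖EC χ u‖ ^ 2 ≤ 1 / U * (U * B ^ 2) := mul_le_mul_of_nonneg_left h1 (by positivity)
      _ = B ^ 2 := by field_simp
  · rintro ⟨C, hC⟩
    refine grh_chi ⟨C + 1, ?_⟩
    filter_upwards [hC, eventually_gt_atTop 0] with U hU h0
    unfold ms at hU
    have h1 : ∫ u in (0 : ℝ)..U, ‖EC χ u‖ ≤ ∫ u in (0 : ℝ)..U, (‖EC χ u‖ ^ 2 + 1) := by
      refine intervalIntegral.integral_mono_on h0.le ((continuous_norm.comp hc).intervalIntegrable _ _)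
        ((by fun_prop : Continuous fun u => ‖EC χ u‖ ^ 2 + 1).intervalIntegrable _ _) fun u _ => ?_
      nlinarith [sq_nonneg (‖EC χ u‖ - 1), norm_nonneg (EC χ u)]
    rw [intervalIntegral.integral_add ((by fun_prop : Continuous fun u => ‖EC χ u‖ ^ 2).intervalIntegrable _ _)
      intervalIntegrable_const, intervalIntegral.integral_const, sub_zero, smul_eq_mul, mul_one] at h1
    have h2 : ∫ u in (0 : ℝ)..U, ‖EC χ u‖ ^ 2 ≤ C * U := by
      have h3 : ∫ u in (0 : ℝ)..U, ‖EC χ u‖ ^ 2 = (1 / U * ∫ u in (0 : ℝ)..U, ‖EC χ u‖ ^ 2) * U := by field_simp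
      rw [h3]
      exact mul_le_mul_of_nonneg_right hU h0.le
    calc ∫ u in (0 : ℝ)..U, ‖EC χ u‖ ≤ _ := h1
      _ ≤ C * U + U := by linarith
      _ = (C + 1) * U := by ring

/-- the correlation -/
noncomputable def Co {k : ℕ} (χ : Fin k → DirichletCharacter ℂ q) (U : ℝ) : ℂ :=
  ((1 / U : ℝ) : ℂ) * ∫ u in (0 : ℝ)..U, ∏ l, (-EC (χ l) u)

/-- there are zeros with ordinates of sum zero -/
def Rel {k : ℕ} (χ : Fin k → DirichletCharacter ℂ q) : Prop :=
  ∃ s : Fin k → ℝ, ∑ l, s l = 0 ∧ ∀ l, LFunction (χ l) (1 / 2 + (s l : ℂ) * I) = 0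

lemma wc_ne (χ : DirichletCharacter ℂ q) (γ : ℝ) : wc χ γ ≠ 0 ↔ LFunction χ (1 / 2 + (γ : ℂ) * I) = 0 := by
  rw [← ordNat_iff χ (half_ne1 γ)]
  unfold wc mc
  have h : (2 : ℝ) / (1 + γ ^ 2) ≠ 0 := by positivity
  rw [Ne, mul_eq_zero, not_or]
  constructor
  · rintro ⟨h1, -⟩
    exact_mod_cast h1
  · intro h1
    exact ⟨by exact_mod_cast h1, h⟩

lemma TT_Rel {k : ℕ} (χ : Fin k → DirichletCharacter ℂ q) (hG : ∀ l, GRHc (χ l)) :
    0 ≤ TT (fun l => wc (χ l)) ∧ (TT (fun l => wc (χ l)) = 0 ↔ ¬ Rel χ) := by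
  obtain ⟨h1, h2⟩ := TT_zero (fun l => wc (χ l)) (fun l => wc_nonneg (χ l)) (fun l => wc_sm (hG l))
  refine ⟨h1, h2.trans (not_congr (exists_congr fun s => and_congr_right fun _ => forall_congr' fun l => ?_))⟩
  exact wc_ne (χ l) (s l)

theorem corr_iff {k : ℕ} (χ : Fin k → DirichletCharacter ℂ q) :
    ((∀ l, GRHc (χ l)) ∧ ¬ Rel χ) ↔ ((∀ l, BM (χ l)) ∧ Tendsto (Co χ) atTop (𝓝 0)) := by
  constructor
  · rintro ⟨hG, hR⟩
    refine ⟨fun l => (ms_iff (χ l)).1 (hG l), ?_⟩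
    have h1 := corr_chi χ hG
    rw [(TT_Rel χ hG).2.2 hR, Complex.ofReal_zero] at h1
    exact h1
  · rintro ⟨hB, hT⟩
    have hG : ∀ l, GRHc (χ l) := fun l => (ms_iff (χ l)).2 (hB l)
    refine ⟨hG, (TT_Rel χ hG).2.1 ?_⟩
    have h1 := tendsto_nhds_unique (corr_chi χ hG) hT
    exact_mod_cast h1

/-! ## conjugation -/

lemma EC_conj (χ : DirichletCharacter ℂ q) (u : ℝ) : EC χ⁻¹ u = conj (EC χ u) := by
  classical
  unfold EC
  rw [map_sub, Complex.conj_tsum]
  congr 1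
  · refine tsum_congr fun n => ?_
    rw [map_mul, map_mul, Complex.conj_ofReal, Complex.conj_ofReal]
    congr 2
    exact (MulChar.star_apply' χ (n : ZMod q)).symm
  · by_cases h : χ = 1
    · rw [if_pos h, if_pos (by rw [h, inv_one]), Complex.conj_ofReal]
    · rw [if_neg h, if_neg (by rwa [inv_eq_one]), map_zero]

lemma BM_conj (χ : DirichletCharacter ℂ q) : BM χ⁻¹ ↔ BM χ := by
  unfold BM ms
  simp only [EC_conj, RCLike.norm_conj]

lemma GRH_conj (χ : DirichletCharacter ℂ q) : GRHc χ⁻¹ ↔ GRHc χ := by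
  rw [ms_iff, ms_iff, BM_conj]

lemma zero_conj (χ : DirichletCharacter ℂ q) (γ : ℝ) :
    LFunction χ⁻¹ (1 / 2 + ((-γ : ℝ) : ℂ) * I) = 0 ↔ LFunction χ (1 / 2 + (γ : ℂ) * I) = 0 := by
  rw [← ordNat_iff χ (half_ne1 γ), ← ordNat_iff χ⁻¹ (half_ne1 (-γ))]
  have h := Pool.Agent.Q14.LQ.t_SY q χ⁻¹ γ
  rw [inv_inv] at h
  unfold mc at h
  rw [h]

/-- common zeros of two `L`-functions -/
theorem common_iff (χ ψ : DirichletCharacter ℂ q) :
    ((GRHc χ ∧ GRHc ψ) ∧ ∀ s : ℂ, 0 < s.re → s.re < 1 → ¬ (LFunction χ s = 0 ∧ LFunction ψ s = 0)) ↔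
    ((BM χ ∧ BM ψ) ∧ Tendsto (fun U : ℝ => ((1 / U : ℝ) : ℂ) * ∫ u in (0 : ℝ)..U, EC χ u * conj (EC ψ u)) atTop (𝓝 0)) := by
  have hCo : (fun U : ℝ => ((1 / U : ℝ) : ℂ) * ∫ u in (0 : ℝ)..U, EC χ u * conj (EC ψ u)) = Co ![χ, ψ⁻¹] := by
    funext U
    unfold Co
    congr 1
    refine intervalIntegral.integral_congr fun u _ => ?_
    simp only [Fin.prod_univ_two, Matrix.cons_val_zero, Matrix.cons_val_one, EC_conj]
    ring
  have hl : ∀ {P : DirichletCharacter ℂ q → Prop}, (∀ l, P (![χ, ψ⁻¹] l)) ↔ P χ ∧ P ψ⁻¹ := by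
    intro P
    rw [Fin.forall_fin_two]
    simp
  have h := corr_iff ![χ, ψ⁻¹]
  rw [hl, hl, GRH_conj, BM_conj, ← hCo] at h
  rw [← h]
  refine and_congr_right fun hG => ?_
  constructor
  · rintro h1 ⟨s, h2, h3⟩
    rw [Fin.forall_fin_two] at h3
    rw [Fin.sum_univ_two] at h2
    simp only [Matrix.cons_val_zero, Matrix.cons_val_one] at h3
    have h4 : s 1 = -s 0 := by linarith
    rw [h4, zero_conj] at h3
    exact h1 (1 / 2 + (s 0 : ℂ) * I) (by rw [half_re1]; norm_num) (by rw [half_re1]; norm_num) h3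
  · rintro h1 s h0 h2 ⟨h3, h4⟩
    have h5 := strip_line hG.1 h0 h2 h3
    have e : s = 1 / 2 + (s.im : ℂ) * I := by
      apply Complex.ext
      · rw [half_re1, h5]
      · rw [half_im1]
    apply h1
    refine ⟨![s.im, -s.im], ?_, ?_⟩
    · rw [Fin.sum_univ_two]
      simp
    · rw [Fin.forall_fin_two]
      refine ⟨?_, ?_⟩
      · simp only [Matrix.cons_val_zero]
        rw [← e]
        exact h3
      · simp only [Matrix.cons_val_one, Matrix.cons_val_zero]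
        rw [zero_conj, ← e]
        exact h4

/-! ## unbalanced tuples -/

/-- the tuple is not closed under conjugation, or contains a real character an odd number of times -/
def Unbal {k : ℕ} (χ : Fin k → DirichletCharacter ℂ q) : Prop := open Classical in
  ∃ ψ : DirichletCharacter ℂ q, (Finset.univ.filter fun l => χ l = ψ).card ≠ (Finset.univ.filter fun l => χ l = ψ⁻¹).card ∨
    (ψ⁻¹ = ψ ∧ Odd (Finset.univ.filter fun l => χ l = ψ).card)

theorem unbal_no_rel (hL : LIz q) (h0 : ∀ χ : DirichletCharacter ℂ q, LFunction χ (1 / 2) ≠ 0) {k : ℕ}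
    (χ : Fin k → DirichletCharacter ℂ q) (hU : Unbal χ) : ¬ Rel χ := by
  classical
  rintro ⟨s, hs, hz⟩
  obtain ⟨-, hlin⟩ := hL
  have hs0 : ∀ l, s l ≠ 0 := by
    intro l h
    have h1 := hz l
    rw [h, Complex.ofReal_zero, zero_mul, add_zero] at h1
    exact h0 _ h1
  -- the index of each entry
  have hp : ∀ l, ∃ p : {p : DirichletCharacter ℂ q × ℂ // 0 < p.2.re ∧ p.2.re < 1 ∧ 0 < p.2.im ∧ LFunction p.1 p.2 = 0},
      p.1.2.im = |s l| ∧ p.1.1 = if 0 < s l then χ l else (χ l)⁻¹ := by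
    intro l
    by_cases h : 0 < s l
    · refine ⟨⟨(χ l, 1 / 2 + (s l : ℂ) * I), ?_, ?_, ?_, hz l⟩, ?_, ?_⟩
      · show 0 < (1 / 2 + (s l : ℂ) * I).re
        rw [half_re1]; norm_num
      · show (1 / 2 + (s l : ℂ) * I).re < 1
        rw [half_re1]; norm_num
      · show 0 < (1 / 2 + (s l : ℂ) * I).im
        rw [half_im1]; exact h
      · show (1 / 2 + (s l : ℂ) * I).im = |s l|
        rw [half_im1, abs_of_pos h]
      · rw [if_pos h]
    · have h' : s l < 0 := lt_of_le_of_ne (not_lt.1 h) (hs0 l)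
      refine ⟨⟨((χ l)⁻¹, 1 / 2 + ((-s l : ℝ) : ℂ) * I), ?_, ?_, ?_, ?_⟩, ?_, ?_⟩
      · show 0 < (1 / 2 + ((-s l : ℝ) : ℂ) * I).re
        rw [half_re1]; norm_num
      · show (1 / 2 + ((-s l : ℝ) : ℂ) * I).re < 1
        rw [half_re1]; norm_num
      · show 0 < (1 / 2 + ((-s l : ℝ) : ℂ) * I).im
        rw [half_im1]; linarith
      · show LFunction (χ l)⁻¹ (1 / 2 + ((-s l : ℝ) : ℂ) * I) = 0
        rw [zero_conj]
        exact hz l
      · show (1 / 2 + ((-s l : ℝ) : ℂ) * I).im = |s l|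
        rw [half_im1, abs_of_neg h']
      · rw [if_neg h]
  choose p hp1 hp2 using hp
  set ε : Fin k → ℚ := fun l => if 0 < s l then 1 else -1 with hε
  have hεs : ∀ l, ((ε l : ℚ) : ℝ) * |s l| = s l := by
    intro l
    rw [hε]
    by_cases h : 0 < s l
    · simp only [if_pos h]
      rw [abs_of_pos h]
      push_cast
      ring
    · have h' : s l < 0 := lt_of_le_of_ne (not_lt.1 h) (hs0 l)
      simp only [if_neg h]
      rw [abs_of_neg h']
      push_cast
      ring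
  set x := ∑ l, Finsupp.single (p l) (ε l) with hx
  have hx0 : x = 0 := by
    apply (linearIndependent_iff.1 hlin) x
    rw [hx, map_sum]
    refine Eq.trans ?_ hs
    refine Finset.sum_congr rfl fun l _ => ?_
    rw [Finsupp.linearCombination_single, hp1, Rat.smul_def, hεs]
  have key : ∀ ψ : DirichletCharacter ℂ q, ∑ l, (if (p l).1.1 = ψ then ε l else 0) = 0 := by
    intro ψ
    have h1 := congrArg (Finsupp.linearCombination ℚ (fun p : {p : DirichletCharacter ℂ q × ℂ // 0 < p.2.re ∧ p.2.re < 1 ∧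
      0 < p.2.im ∧ LFunction p.1 p.2 = 0} => if p.1.1 = ψ then (1 : ℚ) else 0)) hx0
    rw [hx, map_sum, map_zero] at h1
    refine Eq.trans ?_ h1
    refine Finset.sum_congr rfl fun l _ => ?_
    rw [Finsupp.linearCombination_single, smul_eq_mul]
    split_ifs <;> ring
  -- the numbers of positive and negative entries
  set a : DirichletCharacter ℂ q → ℕ := fun ψ => (Finset.univ.filter fun l => χ l = ψ ∧ 0 < s l).card with ha
  set b : DirichletCharacter ℂ q → ℕ := fun ψ => (Finset.univ.filter fun l => χ l = ψ ∧ ¬ 0 < s l).card with hb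
  have hab : ∀ ψ, a ψ = b ψ⁻¹ := by
    intro ψ
    have h1 := key ψ
    have h2 : ∑ l, (if (p l).1.1 = ψ then ε l else 0) =
        ∑ l, ((if χ l = ψ ∧ 0 < s l then (1 : ℚ) else 0) - (if χ l = ψ⁻¹ ∧ ¬ 0 < s l then (1 : ℚ) else 0)) := by
      refine Finset.sum_congr rfl fun l _ => ?_
      rw [hp2 l]
      by_cases h : 0 < s l
      · simp only [h, and_true, not_true_eq_false, and_false, if_false, if_true, sub_zero, hε]
      · have e : ((χ l)⁻¹ = ψ) ↔ (χ l = ψ⁻¹) := by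
          constructor
          · rintro rfl; rw [inv_inv]
          · intro h2; rw [h2, inv_inv]
        simp only [h, and_false, if_false, not_false_eq_true, and_true, zero_sub, hε, e]
        split_ifs <;> ring
    rw [h2, Finset.sum_sub_distrib, Finset.sum_boole, Finset.sum_boole] at h1
    have h3 : ((Finset.univ.filter fun l => χ l = ψ ∧ 0 < s l).card : ℚ) =
        ((Finset.univ.filter fun l => χ l = ψ⁻¹ ∧ ¬ 0 < s l).card : ℚ) := by linarith
    exact_mod_cast h3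
  have hc : ∀ ψ, (Finset.univ.filter fun l => χ l = ψ).card = a ψ + b ψ := by
    intro ψ
    rw [ha, hb]
    simp only
    rw [← Finset.card_filter_add_card_filter_not (s := Finset.univ.filter fun l => χ l = ψ) (fun l => 0 < s l),
      Finset.filter_filter, Finset.filter_filter]
  obtain ⟨ψ, h1 | ⟨h1, h2⟩⟩ := hU
  · apply h1
    rw [hc, hc, hab ψ, hab ψ⁻¹, inv_inv, add_comm]
  · rw [hc, hab ψ, h1] at h2
    exact (Nat.not_odd_iff_even.2 ⟨b ψ, rfl⟩) h2

end Pool.Agent.Q253.LC
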