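import Pool.Agent.Q253.LC.C3
import Pool.Agent.Q253.LH.E

set_option autoImplicit false

/-! # Project LC: prime sums in the classes of an abelian field -/

namespace Pool.Agent.Q253.LC

open MeasureTheory Complex Filter Topology Set
open scoped ComplexConjugate
open DirichletCharacter (LFunction completedLFunction)
open Pool.Agent.Q14.LQ
open Pool.Agent.Q253.LQ (GRHc mc EC)
open Pool.Agent.Q253.CP (chH mem_chH one_mem_chH sum_chH half_re1 half_im1 half_ne1 ordNat_iff strip_line)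

variable {q : ℕ} [NeZero q] {H : Subgroup (ZMod q)ˣ}

open Classical in
/-- the prime sum of the class `aH` -/
noncomputable def EA (H : Subgroup (ZMod q)ˣ) (a : (ZMod q)ˣ) (u : ℝ) : ℝ :=
  (H.index : ℝ) * (∑' n : ℕ, if ∃ v ∈ H, ((a * v : (ZMod q)ˣ) : ZMod q) = (n : ZMod q) then
    ArithmeticFunction.vonMangoldt n * (Real.exp (-(Real.log n / 2)) * Real.exp (-|u - Real.log n|)) else 0) -
    8 / 3 * Real.exp (u / 2)

open Classical in
/-- the coefficients -/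
noncomputable def bA (H : Subgroup (ZMod q)ˣ) (a : (ZMod q)ˣ) (n : ℕ) : ℂ :=
  if ∃ v ∈ H, ((a * v : (ZMod q)ˣ) : ZMod q) = (n : ZMod q) then
    ((ArithmeticFunction.vonMangoldt n * Real.exp (-(Real.log n / 2)) : ℝ) : ℂ) else 0

theorem HB_bA (H : Subgroup (ZMod q)ˣ) (a : (ZMod q)ˣ) : HB (bA H a) := by
  refine HB_of_le (C := 1) fun n => ?_
  have h0 : 0 ≤ ArithmeticFunction.vonMangoldt n * Real.exp (-(Real.log n / 2)) :=
    mul_nonneg ArithmeticFunction.vonMangoldt_nonneg (Real.exp_pos _).le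
  unfold bA
  split_ifs
  · rw [Complex.norm_real, Real.norm_of_nonneg h0, one_mul]
  · rw [norm_zero, one_mul]
    exact h0

theorem EA_eq (H : Subgroup (ZMod q)ˣ) (a : (ZMod q)ˣ) (u : ℝ) :
    ((EA H a u : ℝ) : ℂ) = (H.index : ℂ) * ES (bA H a) u - ((8 / 3 * Real.exp (u / 2) : ℝ) : ℂ) := by
  unfold EA ES
  rw [Complex.ofReal_sub, Complex.ofReal_mul, Complex.ofReal_tsum, Complex.ofReal_natCast]
  congr 2
  refine tsum_congr fun n => ?_
  unfold bA
  split_ifs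
  · push_cast
    ring
  · simp

theorem EA_cont (H : Subgroup (ZMod q)ˣ) (a : (ZMod q)ˣ) : Continuous (EA H a) := by
  have h1 : Continuous (fun u : ℝ => ((H.index : ℂ) * ES (bA H a) u - ((8 / 3 * Real.exp (u / 2) : ℝ) : ℂ)).re) := by
    refine Complex.continuous_re.comp ((continuous_const.mul (ES_cont (HB_bA H a))).sub ?_)
    fun_prop
  have e : EA H a = fun u : ℝ => ((H.index : ℂ) * ES (bA H a) u - ((8 / 3 * Real.exp (u / 2) : ℝ) : ℂ)).re := by
    funext u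
    rw [← EA_eq, Complex.ofReal_re]
  rw [e]
  exact h1

/-- `χ(a⁻¹)` -/
noncomputable def cv (χ : DirichletCharacter ℂ q) (a : (ZMod q)ˣ) : ℂ := χ ((a⁻¹ : (ZMod q)ˣ) : ZMod q)

theorem sum_bcA (a : (ZMod q)ˣ) (n : ℕ) : ∑ χ ∈ chH H, cv χ a * bc χ n = (H.index : ℂ) * bA H a n := by
  classical
  have h3 := sum_chH H (((a⁻¹ : (ZMod q)ˣ) : ZMod q) * (n : ZMod q))
  have e : (∃ v ∈ H, (v : ZMod q) = ((a⁻¹ : (ZMod q)ˣ) : ZMod q) * (n : ZMod q)) ↔
      ∃ v ∈ H, ((a * v : (ZMod q)ˣ) : ZMod q) = (n : ZMod q) := by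
    refine exists_congr fun v => and_congr_right fun _ => ?_
    rw [Units.val_mul]
    constructor
    · intro h
      rw [h, ← mul_assoc, Units.mul_inv, one_mul]
    · intro h
      rw [← h, ← mul_assoc, Units.inv_mul, one_mul]
  have h4 : ∑ χ ∈ chH H, cv χ a * bc χ n = (∑ χ ∈ chH H, χ (((a⁻¹ : (ZMod q)ˣ) : ZMod q) * (n : ZMod q))) *
      ((ArithmeticFunction.vonMangoldt n * Real.exp (-(Real.log n / 2)) : ℝ) : ℂ) := by
    rw [Finset.sum_mul]
    refine Finset.sum_congr rfl fun χ _ => ?_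
    unfold cv bc
    rw [map_mul]
    push_cast
    ring
  rw [h4, h3]
  unfold bA
  by_cases h : ∃ v ∈ H, ((a * v : (ZMod q)ˣ) : ZMod q) = (n : ZMod q)
  · rw [if_pos h, if_pos (e.2 h)]
  · rw [if_neg h, if_neg (fun h' => h (e.1 h')), zero_mul, mul_zero]

theorem EA_sum (a : (ZMod q)ˣ) (u : ℝ) : ((EA H a u : ℝ) : ℂ) = ∑ χ ∈ chH H, cv χ a * EC χ u := by
  classical
  simp_rw [EC_eq, mul_sub]
  rw [Finset.sum_sub_distrib, EA_eq]
  congr 1
  · unfold ES
    simp_rw [← tsum_mul_left]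
    rw [← Summable.tsum_finsetSum fun χ _ => ((ES_summable (HB_bc χ) u).of_norm.mul_left _)]
    refine tsum_congr fun n => ?_
    rw [← mul_assoc, ← sum_bcA, Finset.sum_mul]
    refine Finset.sum_congr rfl fun χ _ => ?_
    ring
  · have h1 : ∀ χ ∈ chH H, cv χ a * (if χ = 1 then ((8 / 3 * Real.exp (u / 2) : ℝ) : ℂ) else 0) =
        if χ = 1 then ((8 / 3 * Real.exp (u / 2) : ℝ) : ℂ) else 0 := by
      intro χ _
      by_cases h : χ = 1
      · rw [if_pos h, h]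
        unfold cv
        rw [MulChar.one_apply_coe, one_mul]
      · rw [if_neg h, mul_zero]
    rw [Finset.sum_congr rfl h1, Finset.sum_ite_eq' (chH H) (1 : DirichletCharacter ℂ q), if_pos (one_mem_chH H)]

/-! ## orthogonality -/

lemma unit_mul_apply (χ ψ : DirichletCharacter ℂ q) (a : (ZMod q)ˣ) :
    χ (a : ZMod q) * cv ψ a = (χ * ψ⁻¹) (a : ZMod q) := by
  unfold cv
  rw [MulChar.mul_apply]
  congr 1
  rw [MulChar.inv_apply_eq_inv']
  have h1 : ψ (a : ZMod q) * ψ ((a⁻¹ : (ZMod q)ˣ) : ZMod q) = 1 := by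
    rw [← map_mul, Units.mul_inv, map_one]
  exact eq_inv_of_mul_eq_one_right h1

lemma sum_units (χ : DirichletCharacter ℂ q) (h : χ ≠ 1) : ∑ a : (ZMod q)ˣ, χ (a : ZMod q) = 0 := by
  obtain ⟨b, hb⟩ := MulChar.ne_one_iff.1 h
  have h1 : ∑ a : (ZMod q)ˣ, χ (a : ZMod q) = χ (b : ZMod q) * ∑ a : (ZMod q)ˣ, χ (a : ZMod q) := by
    rw [Finset.mul_sum]
    rw [← Equiv.sum_comp (Equiv.mulLeft b)]
    refine Finset.sum_congr rfl fun a _ => ?_
    rw [Equiv.coe_mulLeft, Units.val_mul, map_mul]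
  have h2 : (1 - χ (b : ZMod q)) * ∑ a : (ZMod q)ˣ, χ (a : ZMod q) = 0 := by
    linear_combination h1
  rcases mul_eq_zero.1 h2 with h3 | h3
  · exact absurd (by linear_combination -h3) hb
  · exact h3

lemma orth (χ ψ : DirichletCharacter ℂ q) [Decidable (χ = ψ)] :
    ∑ a : (ZMod q)ˣ, χ (a : ZMod q) * cv ψ a = if χ = ψ then (Fintype.card (ZMod q)ˣ : ℂ) else 0 := by
  simp_rw [unit_mul_apply]
  split_ifs with h
  · rw [h, mul_inv_cancel]
    rw [Finset.sum_congr rfl fun a _ => MulChar.one_apply_coe a]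
    simp
  · exact sum_units _ fun h1 => h (by rwa [mul_inv_eq_one] at h1)

lemma prod_cv {k : ℕ} (χ : Fin k → DirichletCharacter ℂ q) (b : (ZMod q)ˣ) :
    ∏ j, cv (χ j) b = cv (∏ j, χ j) b := by
  classical
  have h : ∀ S : Finset (Fin k), ∏ j ∈ S, cv (χ j) b = cv (∏ j ∈ S, χ j) b := by
    intro S
    induction S using Finset.induction_on with
    | empty =>
      unfold cv
      rw [Finset.prod_empty, Finset.prod_empty, MulChar.one_apply_coe]
    | insert a S ha ih =>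
      rw [Finset.prod_insert ha, Finset.prod_insert ha, ih]
      unfold cv
      rw [MulChar.mul_apply]
  exact h Finset.univ

lemma cv_mul (χ : DirichletCharacter ℂ q) (a b : (ZMod q)ˣ) : cv χ (b * a) = cv χ b * cv χ a := by
  unfold cv
  rw [mul_inv, Units.val_mul, map_mul]

lemma exists_cv_ne {χ : DirichletCharacter ℂ q} (h : χ ≠ 1) : ∃ b : (ZMod q)ˣ, cv χ b ≠ 1 := by
  obtain ⟨b, hb⟩ := MulChar.ne_one_iff.1 h
  refine ⟨b⁻¹, ?_⟩
  unfold cv
  rwa [inv_inv]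

/-- Fourier inversion -/
lemma inversion {k : ℕ} (c : (Fin k → DirichletCharacter ℂ q) → ℂ) (χ₀ : Fin k → DirichletCharacter ℂ q)
    (h : ∀ j, χ₀ j ∈ chH H) :
    ∑ a : Fin k → (ZMod q)ˣ, (∏ j, χ₀ j (a j : ZMod q)) *
      ∑ χ ∈ Fintype.piFinset (fun _ : Fin k => chH H), (∏ j, cv (χ j) (a j)) * c χ =
      (Fintype.card (ZMod q)ˣ : ℂ) ^ k * c χ₀ := by
  classical
  simp_rw [Finset.mul_sum]
  rw [Finset.sum_comm]
  have h1 : ∀ χ : Fin k → DirichletCharacter ℂ q, ∑ a : Fin k → (ZMod q)ˣ,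
      (∏ j, χ₀ j (a j : ZMod q)) * ((∏ j, cv (χ j) (a j)) * c χ) =
      if χ = χ₀ then (Fintype.card (ZMod q)ˣ : ℂ) ^ k * c χ₀ else 0 := by
    intro χ
    have h2 : ∑ a : Fin k → (ZMod q)ˣ, (∏ j, χ₀ j (a j : ZMod q)) * ((∏ j, cv (χ j) (a j)) * c χ) =
        (∏ j, ∑ a : (ZMod q)ˣ, χ₀ j (a : ZMod q) * cv (χ j) a) * c χ := by
      rw [Finset.prod_univ_sum, Finset.sum_mul, Fintype.piFinset_univ]
      refine Finset.sum_congr rfl fun a _ => ?_
      rw [Finset.prod_mul_distrib]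
      ring
    rw [h2]
    simp_rw [orth]
    split_ifs with h3
    · rw [h3]
      simp
    · obtain ⟨j, hj⟩ := Function.ne_iff.1 h3
      rw [Finset.prod_eq_zero (Finset.mem_univ j) (if_neg fun h4 => hj h4.symm), zero_mul]
  rw [Finset.sum_congr rfl fun χ _ => h1 χ, Finset.sum_ite_eq', if_pos (Fintype.mem_piFinset.2 h)]

/-! ## mixed moments -/

/-- the mixed moments -/
noncomputable def MM (H : Subgroup (ZMod q)ˣ) {k : ℕ} (a : Fin k → (ZMod q)ˣ) (U : ℝ) : ℝ :=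
  (1 / U) * ∫ u in (0 : ℝ)..U, ∏ j, (-EA H (a j) u)

theorem MM_eq {k : ℕ} (a : Fin k → (ZMod q)ˣ) (U : ℝ) :
    ((MM H a U : ℝ) : ℂ) = ∑ χ ∈ Fintype.piFinset (fun _ : Fin k => chH H), (∏ j, cv (χ j) (a j)) * Co χ U := by
  classical
  unfold MM Co
  rw [Complex.ofReal_mul, ← intervalIntegral.integral_ofReal]
  have h1 : ∀ u : ℝ, ((∏ j, (-EA H (a j) u) : ℝ) : ℂ) = ∑ χ ∈ Fintype.piFinset (fun _ : Fin k => chH H),
      (∏ j, cv (χ j) (a j)) * ∏ j, (-EC (χ j) u) := by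
    intro u
    rw [Complex.ofReal_prod]
    have h2 : ∀ j : Fin k, ((-EA H (a j) u : ℝ) : ℂ) = ∑ χ ∈ chH H, cv χ (a j) * (-EC χ u) := by
      intro j
      rw [Complex.ofReal_neg, EA_sum, ← Finset.sum_neg_distrib]
      refine Finset.sum_congr rfl fun χ _ => ?_
      ring
    rw [Finset.prod_congr rfl fun j _ => h2 j, Finset.prod_univ_sum]
    refine Finset.sum_congr rfl fun χ _ => ?_
    rw [Finset.prod_mul_distrib]
  simp_rw [h1]
  rw [intervalIntegral.integral_finsetSum fun χ _ => (Continuous.intervalIntegrable (by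
    exact continuous_const.mul (continuous_finsetProd _ fun j _ => (EC_cont (χ j)).neg)) _ _), Finset.mul_sum]
  refine Finset.sum_congr rfl fun χ _ => ?_
  rw [intervalIntegral.integral_const_mul]
  ring

/-- their limits -/
noncomputable def LL (H : Subgroup (ZMod q)ˣ) {k : ℕ} (a : Fin k → (ZMod q)ˣ) : ℂ :=
  ∑ χ ∈ Fintype.piFinset (fun _ : Fin k => chH H), (∏ j, cv (χ j) (a j)) * ((TT (fun l => wc (χ l)) : ℝ) : ℂ)

theorem MM_tendsto (hG : ∀ χ ∈ chH H, GRHc χ) {k : ℕ} (a : Fin k → (ZMod q)ˣ) :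
    Tendsto (fun U => ((MM H a U : ℝ) : ℂ)) atTop (𝓝 (LL H a)) := by
  unfold LL
  simp_rw [MM_eq]
  refine tendsto_finsetSum _ fun χ hχ => ?_
  exact (corr_chi χ fun l => hG _ (Fintype.mem_piFinset.1 hχ l)).const_mul _

/-- no relation with a nontrivial product -/
def NR (H : Subgroup (ZMod q)ˣ) (k : ℕ) : Prop :=
  ∀ χ : Fin k → DirichletCharacter ℂ q, (∀ j, χ j ∈ chH H) → ∏ j, χ j ≠ 1 → ¬ Rel χ

/-- the mixed moments are invariant -/
def Iv (H : Subgroup (ZMod q)ˣ) (k : ℕ) : Prop :=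
  ∀ (a : Fin k → (ZMod q)ˣ) (b : (ZMod q)ˣ), Tendsto (fun U => MM H (fun j => b * a j) U - MM H a U) atTop (𝓝 0)

/-- bounded mean squares -/
def BA (H : Subgroup (ZMod q)ˣ) : Prop :=
  ∀ a : (ZMod q)ˣ, ∃ C : ℝ, ∀ᶠ U : ℝ in atTop, (1 / U) * ∫ u in (0 : ℝ)..U, EA H a u ^ 2 ≤ C

lemma LL_mul {k : ℕ} (a : Fin k → (ZMod q)ˣ) (b : (ZMod q)ˣ) : LL H (fun j => b * a j) =
    ∑ χ ∈ Fintype.piFinset (fun _ : Fin k => chH H), (∏ j, cv (χ j) (a j)) *
      (cv (∏ j, χ j) b * ((TT (fun l => wc (χ l)) : ℝ) : ℂ)) := by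
  unfold LL
  refine Finset.sum_congr rfl fun χ _ => ?_
  rw [← prod_cv]
  simp_rw [cv_mul]
  rw [Finset.prod_mul_distrib]
  ring

lemma Iv_iff (hG : ∀ χ ∈ chH H, GRHc χ) (k : ℕ) :
    Iv H k ↔ ∀ (a : Fin k → (ZMod q)ˣ) (b : (ZMod q)ˣ), LL H (fun j => b * a j) = LL H a := by
  unfold Iv
  refine forall_congr' fun a => forall_congr' fun b => ?_
  have h := (MM_tendsto hG (fun j => b * a j)).sub (MM_tendsto hG a)
  constructor
  · intro h1
    have h2 : Tendsto (fun U => ((MM H (fun j => b * a j) U - MM H a U : ℝ) : ℂ)) atTop (𝓝 ((0 : ℝ) : ℂ)) :=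
      (Complex.continuous_ofReal.tendsto _).comp h1
    have h3 : Tendsto (fun U => ((MM H (fun j => b * a j) U - MM H a U : ℝ) : ℂ)) atTop
        (𝓝 (LL H (fun j => b * a j) - LL H a)) := by
      refine h.congr fun U => ?_
      push_cast
      ring
    have h4 := tendsto_nhds_unique h3 h2
    rw [Complex.ofReal_zero] at h4
    exact sub_eq_zero.1 h4
  · intro h1
    rw [h1, sub_self] at h
    have h2 : Tendsto (fun U => (((MM H (fun j => b * a j) U : ℝ) : ℂ) - ((MM H a U : ℝ) : ℂ)).re) atTop (𝓝 (0 : ℂ).re) :=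
      (Complex.continuous_re.tendsto _).comp h
    refine (h2.congr fun U => ?_)
    rw [Complex.sub_re, Complex.ofReal_re, Complex.ofReal_re]

theorem Iv_NR (hG : ∀ χ ∈ chH H, GRHc χ) (k : ℕ) : Iv H k ↔ NR H k := by
  classical
  rw [Iv_iff hG]
  constructor
  · intro h χ₀ hm hne
    rw [← (TT_Rel χ₀ fun l => hG _ (hm l)).2]
    obtain ⟨b, hb⟩ := exists_cv_ne hne
    have h1 := inversion (H := H) (fun χ => cv (∏ j, χ j) b * ((TT (fun l => wc (χ l)) : ℝ) : ℂ)) χ₀ hm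
    have h2 := inversion (H := H) (fun χ => ((TT (fun l => wc (χ l)) : ℝ) : ℂ)) χ₀ hm
    have h3 : (Fintype.card (ZMod q)ˣ : ℂ) ^ k * (cv (∏ j, χ₀ j) b * ((TT (fun l => wc (χ₀ l)) : ℝ) : ℂ)) =
        (Fintype.card (ZMod q)ˣ : ℂ) ^ k * ((TT (fun l => wc (χ₀ l)) : ℝ) : ℂ) := by
      rw [← h1, ← h2]
      refine Finset.sum_congr rfl fun a _ => ?_
      congr 1
      have h4 := h a b
      rw [LL_mul] at h4
      exact h4
    have hc : (Fintype.card (ZMod q)ˣ : ℂ) ^ k ≠ 0 := by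
      refine pow_ne_zero _ ?_
      exact_mod_cast Fintype.card_ne_zero
    have h5 := mul_left_cancel₀ hc h3
    have h6 : (cv (∏ j, χ₀ j) b - 1) * ((TT (fun l => wc (χ₀ l)) : ℝ) : ℂ) = 0 := by linear_combination h5
    rcases mul_eq_zero.1 h6 with h7 | h7
    · exact absurd (sub_eq_zero.1 h7) hb
    · exact_mod_cast h7
  · intro h a b
    rw [LL_mul]
    unfold LL
    refine Finset.sum_congr rfl fun χ hχ => ?_
    have hm : ∀ j, χ j ∈ chH H := Fintype.mem_piFinset.1 hχ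
    by_cases h1 : ∏ j, χ j = 1
    · rw [h1]
      unfold cv
      rw [MulChar.one_apply_coe, one_mul]
    · rw [(TT_Rel χ fun l => hG _ (hm l)).2.2 (h χ hm h1), Complex.ofReal_zero, mul_zero]

lemma EA_bd (hG : ∀ χ ∈ chH H, GRHc χ) : ∃ B : ℝ, 0 ≤ B ∧ ∀ (a : (ZMod q)ˣ) (u : ℝ), 0 ≤ u → |EA H a u| ≤ B := by
  classical
  have h : ∀ χ : DirichletCharacter ℂ q, ∃ B : ℝ, 0 ≤ B ∧ (χ ∈ chH H → ∀ u : ℝ, 0 ≤ u → ‖EC χ u‖ ≤ B) := by
    intro χ
    by_cases hχ : χ ∈ chH H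
    · obtain ⟨B, h1, h2⟩ := EC_bd (hG χ hχ)
      exact ⟨B, h1, fun _ => h2⟩
    · exact ⟨0, le_rfl, fun h => absurd h hχ⟩
  choose B hB0 hB using h
  refine ⟨∑ χ ∈ chH H, B χ, Finset.sum_nonneg fun χ _ => hB0 χ, fun a u hu => ?_⟩
  have h1 : |EA H a u| = ‖((EA H a u : ℝ) : ℂ)‖ := by rw [Complex.norm_real, Real.norm_eq_abs]
  rw [h1, EA_sum]
  refine (norm_sum_le _ _).trans (Finset.sum_le_sum fun χ hχ => ?_)
  rw [norm_mul]
  have h2 : ‖cv χ a‖ ≤ 1 := DirichletCharacter.norm_le_one χ _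
  calc ‖cv χ a‖ * ‖EC χ u‖ ≤ 1 * B χ := mul_le_mul h2 (hB χ hχ u hu) (norm_nonneg _) (by norm_num)
    _ = B χ := one_mul _

theorem BA_iff : BA H ↔ ∀ χ ∈ chH H, GRHc χ := by
  classical
  constructor
  · intro h χ₀ hχ₀
    choose C hC using h
    refine grh_chi ⟨∑ a : (ZMod q)ˣ, (C a + 1), ?_⟩
    have hall : ∀ᶠ U : ℝ in atTop, ∀ a : (ZMod q)ˣ, (1 / U) * ∫ u in (0 : ℝ)..U, EA H a u ^ 2 ≤ C a :=
      (eventually_all).2 hC
    filter_upwards [hall, eventually_gt_atTop 0] with U hU h0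
    have hp : ∀ u : ℝ, ‖EC χ₀ u‖ ≤ ∑ a : (ZMod q)ˣ, (EA H a u ^ 2 + 1) := by
      intro u
      have h1 : (Fintype.card (ZMod q)ˣ : ℂ) * EC χ₀ u = ∑ a : (ZMod q)ˣ, χ₀ (a : ZMod q) * ((EA H a u : ℝ) : ℂ) := by
        simp_rw [EA_sum, Finset.mul_sum]
        rw [Finset.sum_comm]
        have h2 : ∀ χ ∈ chH H, ∑ a : (ZMod q)ˣ, χ₀ (a : ZMod q) * (cv χ a * EC χ u) =
            if χ₀ = χ then (Fintype.card (ZMod q)ˣ : ℂ) * EC χ u else 0 := by
          intro χ _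
          have h3 := orth χ₀ χ
          have h4 : ∑ a : (ZMod q)ˣ, χ₀ (a : ZMod q) * (cv χ a * EC χ u) =
              (∑ a : (ZMod q)ˣ, χ₀ (a : ZMod q) * cv χ a) * EC χ u := by
            rw [Finset.sum_mul]
            refine Finset.sum_congr rfl fun a _ => ?_
            ring
          rw [h4, h3]
          split_ifs
          · rfl
          · rw [zero_mul]
        rw [Finset.sum_congr rfl h2, Finset.sum_ite_eq, if_pos hχ₀]
      have hcard : (1 : ℝ) ≤ Fintype.card (ZMod q)ˣ := by exact_mod_cast Fintype.card_pos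
      have h5 : (Fintype.card (ZMod q)ˣ : ℝ) * ‖EC χ₀ u‖ ≤ ∑ a : (ZMod q)ˣ, |EA H a u| := by
        have h6 : ‖(Fintype.card (ZMod q)ˣ : ℂ) * EC χ₀ u‖ = (Fintype.card (ZMod q)ˣ : ℝ) * ‖EC χ₀ u‖ := by
          rw [norm_mul, Complex.norm_natCast]
        rw [← h6, h1]
        refine (norm_sum_le _ _).trans (Finset.sum_le_sum fun a _ => ?_)
        rw [norm_mul, Complex.norm_real, Real.norm_eq_abs]
        calc ‖χ₀ (a : ZMod q)‖ * |EA H a u| ≤ 1 * |EA H a u| :=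
              mul_le_mul_of_nonneg_right (DirichletCharacter.norm_le_one χ₀ _) (abs_nonneg _)
          _ = |EA H a u| := one_mul _
      calc ‖EC χ₀ u‖ ≤ (Fintype.card (ZMod q)ˣ : ℝ) * ‖EC χ₀ u‖ := by
            nlinarith [norm_nonneg (EC χ₀ u)]
        _ ≤ ∑ a : (ZMod q)ˣ, |EA H a u| := h5
        _ ≤ ∑ a : (ZMod q)ˣ, (EA H a u ^ 2 + 1) := by
            refine Finset.sum_le_sum fun a _ => ?_
            have h7 := sq_abs (EA H a u)
            nlinarith [sq_nonneg (|EA H a u| - 1), abs_nonneg (EA H a u)]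
    have hca : ∀ a : (ZMod q)ˣ, Continuous fun u => EA H a u ^ 2 + 1 := fun a => ((EA_cont H a).pow 2).add continuous_const
    calc ∫ u in (0 : ℝ)..U, ‖EC χ₀ u‖ ≤ ∫ u in (0 : ℝ)..U, ∑ a : (ZMod q)ˣ, (EA H a u ^ 2 + 1) := by
          refine intervalIntegral.integral_mono_on h0.le ((continuous_norm.comp (EC_cont χ₀)).intervalIntegrable _ _)
            ((continuous_finsetSum _ fun a _ => hca a).intervalIntegrable _ _) fun u _ => hp u
      _ = ∑ a : (ZMod q)ˣ, ∫ u in (0 : ℝ)..U, (EA H a u ^ 2 + 1) :=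
          intervalIntegral.integral_finsetSum fun a _ => (hca a).intervalIntegrable _ _
      _ ≤ ∑ a : (ZMod q)ˣ, (C a + 1) * U := by
          refine Finset.sum_le_sum fun a _ => ?_
          have hq2 : Continuous fun u => EA H a u ^ 2 := (EA_cont H a).pow 2
          rw [intervalIntegral.integral_add (hq2.intervalIntegrable _ _) intervalIntegrable_const,
            intervalIntegral.integral_const, sub_zero, smul_eq_mul, mul_one]
          have h3 : ∫ u in (0 : ℝ)..U, EA H a u ^ 2 = (1 / U * ∫ u in (0 : ℝ)..U, EA H a u ^ 2) * U := by field_simp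
          rw [h3]
          nlinarith [mul_le_mul_of_nonneg_right (hU a) h0.le]
      _ = (∑ a : (ZMod q)ˣ, (C a + 1)) * U := by rw [Finset.sum_mul]
  · intro hG a
    obtain ⟨B, hB0, hB⟩ := EA_bd hG
    refine ⟨B ^ 2, ?_⟩
    filter_upwards [eventually_gt_atTop 0] with U hU
    have h1 : ∫ u in (0 : ℝ)..U, EA H a u ^ 2 ≤ ∫ _u in (0 : ℝ)..U, B ^ 2 := by
      refine intervalIntegral.integral_mono_on hU.le (((EA_cont H a).pow 2).intervalIntegrable _ _)
        intervalIntegrable_const fun u hu => ?_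
      rw [← sq_abs]
      exact pow_le_pow_left₀ (abs_nonneg _) (hB a u hu.1) 2
    rw [intervalIntegral.integral_const, sub_zero, smul_eq_mul] at h1
    calc 1 / U * ∫ u in (0 : ℝ)..U, EA H a u ^ 2 ≤ 1 / U * (U * B ^ 2) := mul_le_mul_of_nonneg_left h1 (by positivity)
      _ = B ^ 2 := by field_simp

theorem main_k (k : ℕ) : ((∀ χ ∈ chH H, GRHc χ) ∧ NR H k) ↔ (BA H ∧ Iv H k) := by
  constructor
  · rintro ⟨hG, h⟩
    exact ⟨BA_iff.2 hG, (Iv_NR hG k).2 h⟩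
  · rintro ⟨hB, h⟩
    have hG := BA_iff.1 hB
    exact ⟨hG, (Iv_NR hG k).1 h⟩

end Pool.Agent.Q253.LC
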