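import Pool.Agent.Q253.LC.C4

set_option autoImplicit false

/-! # Project LC: from moments to laws -/

namespace Pool.Agent.Q253.LC

open MeasureTheory Complex Filter Topology Set
open Pool.Agent.Q253.LQ (GRHc mc EC)
open Pool.Agent.Q253.CP (chH mem_chH one_mem_chH sum_chH)

variable {q : ℕ} [NeZero q] {H : Subgroup (ZMod q)ˣ}

/-- the polynomial functions -/
noncomputable def VV (G : Type) : Submodule ℝ ((G → ℝ) → ℝ) :=
  Submodule.span ℝ {F | ∃ (k : ℕ) (a : Fin k → G), F = fun x => ∏ j, (-x (a j))}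

lemma VV_mul {G : Type} {F : (G → ℝ) → ℝ} (hF : F ∈ VV G) (c : G) : (fun x => F x * x c) ∈ VV G := by
  unfold VV at hF ⊢
  induction hF using Submodule.span_induction with
  | mem F hF =>
    obtain ⟨k, a, rfl⟩ := hF
    have e : (fun x : G → ℝ => (∏ j, (-x (a j))) * x c) =
        (-1 : ℝ) • fun x : G → ℝ => ∏ j : Fin (k + 1), (-x ((Fin.cons c a : Fin (k + 1) → G) j)) := by
      funext x
      rw [Pi.smul_apply, Fin.prod_univ_succ, Fin.cons_zero, smul_eq_mul]
      simp only [Fin.cons_succ]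
      ring
    rw [e]
    exact Submodule.smul_mem _ _ (Submodule.subset_span ⟨k + 1, _, rfl⟩)
  | zero =>
    have e : (fun x : G → ℝ => (0 : (G → ℝ) → ℝ) x * x c) = 0 := by
      funext x
      simp
    rw [e]
    exact Submodule.zero_mem _
  | add F F' _ _ h h' =>
    have e : (fun x : G → ℝ => (F + F') x * x c) = (fun x => F x * x c) + fun x => F' x * x c := by
      funext x
      rw [Pi.add_apply, Pi.add_apply]
      ring
    rw [e]
    exact Submodule.add_mem _ h h'
  | smul r F _ h =>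
    have e : (fun x : G → ℝ => (r • F) x * x c) = r • fun x => F x * x c := by
      funext x
      rw [Pi.smul_apply, Pi.smul_apply, smul_eq_mul, smul_eq_mul]
      ring
    rw [e]
    exact Submodule.smul_mem _ _ h

lemma eval_mem {G : Type} (P : MvPolynomial G ℝ) : (fun x : G → ℝ => MvPolynomial.eval x P) ∈ VV G := by
  induction P using MvPolynomial.induction_on with
  | C r =>
    have e : (fun x : G → ℝ => MvPolynomial.eval x (MvPolynomial.C r)) =
        r • fun x : G → ℝ => ∏ j : Fin 0, (-x ((Fin.elim0 : Fin 0 → G) j)) := by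
      funext x
      rw [MvPolynomial.eval_C, Pi.smul_apply, Finset.univ_eq_empty, Finset.prod_empty, smul_eq_mul, mul_one]
    rw [e]
    exact Submodule.smul_mem _ _ (Submodule.subset_span ⟨0, _, rfl⟩)
  | add P P' h h' =>
    have e : (fun x : G → ℝ => MvPolynomial.eval x (P + P')) =
        (fun x => MvPolynomial.eval x P) + fun x => MvPolynomial.eval x P' := by
      funext x
      rw [Pi.add_apply, map_add]
    rw [e]
    exact Submodule.add_mem _ h h'
  | mul_X P c h =>
    have e : (fun x : G → ℝ => MvPolynomial.eval x (P * MvPolynomial.X c)) =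
        fun x => MvPolynomial.eval x P * x c := by
      funext x
      rw [map_mul, MvPolynomial.eval_X]
    rw [e]
    exact VV_mul h c

/-- approximation by polynomials -/
lemma approx {G : Type} [Fintype G] {B : ℝ} (hB : 0 ≤ B) (Φ : (G → ℝ) → ℝ) (hΦ : Continuous Φ) (ε : ℝ) (hε : 0 < ε) :
    ∃ P : MvPolynomial G ℝ, ∀ x : G → ℝ, (∀ a, |x a| ≤ B) → |MvPolynomial.eval x P - Φ x| < ε := by
  set K : Set (G → ℝ) := Metric.closedBall 0 B with hK
  have : CompactSpace K := isCompact_iff_compactSpace.1 (isCompact_closedBall 0 B)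
  set co : G → C(K, ℝ) := fun a => ⟨fun x => x.1 a, (continuous_apply a).comp continuous_subtype_val⟩ with hco
  set A : Subalgebra ℝ C(K, ℝ) := (MvPolynomial.aeval co).range with hA
  have hsep : A.SeparatesPoints := by
    intro x y hxy
    have h1 : x.1 ≠ y.1 := fun h => hxy (Subtype.ext h)
    obtain ⟨a, ha⟩ := Function.ne_iff.1 h1
    refine ⟨co a, ⟨co a, ?_, rfl⟩, ha⟩
    refine ⟨MvPolynomial.X a, ?_⟩
    exact MvPolynomial.aeval_X _ _
  obtain ⟨⟨g, hg⟩, hg2⟩ := ContinuousMap.exists_mem_subalgebra_near_continuous_of_separatesPoints A hsep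
    (fun x : K => Φ x.1) (hΦ.comp continuous_subtype_val) ε hε
  obtain ⟨P, hP⟩ := hg
  refine ⟨P, fun x hx => ?_⟩
  have hxK : x ∈ K := by
    rw [hK, mem_closedBall_zero_iff]
    exact (pi_norm_le_iff_of_nonneg hB).2 fun a => by rw [Real.norm_eq_abs]; exact hx a
  have h3 := hg2 ⟨x, hxK⟩
  rw [Real.norm_eq_abs] at h3
  have h4 : (g : K → ℝ) ⟨x, hxK⟩ = MvPolynomial.eval x P := by
    have h5 : g = MvPolynomial.aeval co P := hP.symm
    rw [h5]
    have h6 : (ContinuousMap.evalAlgHom ℝ ℝ (⟨x, hxK⟩ : K)) (MvPolynomial.aeval co P) = MvPolynomial.aeval x P := by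
      rw [← AlgHom.comp_apply, MvPolynomial.comp_aeval]
      rfl
    rw [MvPolynomial.aeval_eq_eval] at h6
    exact h6
  rw [← h4]
  exact h3

/-- the difference of the means of `F` at `E ∘ σ` and at `E` -/
noncomputable def DM (H : Subgroup (ZMod q)ˣ) (σ : (ZMod q)ˣ → (ZMod q)ˣ) (F : ((ZMod q)ˣ → ℝ) → ℝ) (U : ℝ) : ℝ :=
  (1 / U) * ∫ u in (0 : ℝ)..U, (F (fun a => EA H (σ a) u) - F (fun a => EA H a u))

lemma EV_cont (H : Subgroup (ZMod q)ˣ) (σ : (ZMod q)ˣ → (ZMod q)ˣ) :
    Continuous (fun u => (fun a => EA H (σ a) u : (ZMod q)ˣ → ℝ)) :=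
  continuous_pi fun a => EA_cont H (σ a)

lemma DM_cont {F : ((ZMod q)ˣ → ℝ) → ℝ} (hF : Continuous F) (H : Subgroup (ZMod q)ˣ) (σ : (ZMod q)ˣ → (ZMod q)ˣ) :
    Continuous (fun u => F (fun a => EA H (σ a) u) - F (fun a => EA H a u)) :=
  (hF.comp (EV_cont H σ)).sub (hF.comp (EV_cont H id))

/-- polynomial functions -/
lemma DM_poly (σ : (ZMod q)ˣ → (ZMod q)ˣ)
    (h : ∀ (k : ℕ) (a : Fin k → (ZMod q)ˣ), Tendsto (fun U => MM H (fun j => σ (a j)) U - MM H a U) atTop (𝓝 0))
    {F : ((ZMod q)ˣ → ℝ) → ℝ} (hF : F ∈ VV (ZMod q)ˣ) : Continuous F ∧ Tendsto (DM H σ F) atTop (𝓝 0) := by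
  unfold VV at hF
  induction hF using Submodule.span_induction with
  | mem F hF =>
    obtain ⟨k, a, rfl⟩ := hF
    refine ⟨by fun_prop, ?_⟩
    refine (h k a).congr fun U => ?_
    unfold DM MM
    rw [← mul_sub, ← intervalIntegral.integral_sub]
    · exact (continuous_finsetProd _ fun j _ => (EA_cont H (σ (a j))).neg).intervalIntegrable _ _
    · exact (continuous_finsetProd _ fun j _ => (EA_cont H (a j)).neg).intervalIntegrable _ _
  | zero =>
    refine ⟨continuous_const, ?_⟩
    have e : DM H σ 0 = fun _ => 0 := by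
      funext U
      unfold DM
      simp
    rw [e]
    exact tendsto_const_nhds
  | add F F' _ _ h1 h2 =>
    refine ⟨h1.1.add h2.1, ?_⟩
    have h3 := h1.2.add h2.2
    rw [add_zero] at h3
    refine h3.congr fun U => ?_
    unfold DM
    rw [← mul_add, ← intervalIntegral.integral_add ((DM_cont h1.1 H σ).intervalIntegrable _ _)
      ((DM_cont h2.1 H σ).intervalIntegrable _ _)]
    congr 1
    refine intervalIntegral.integral_congr fun u _ => ?_
    simp only [Pi.add_apply]
    ring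
  | smul r F _ h1 =>
    refine ⟨h1.1.const_smul r, ?_⟩
    have h3 := h1.2.const_mul r
    rw [mul_zero] at h3
    refine h3.congr fun U => ?_
    unfold DM
    rw [mul_left_comm, ← intervalIntegral.integral_const_mul]
    congr 1
    refine intervalIntegral.integral_congr fun u _ => ?_
    simp only [Pi.smul_apply, smul_eq_mul]
    ring

/-- the moments decide the law -/
theorem law (hG : ∀ χ ∈ chH H, GRHc χ) (σ : (ZMod q)ˣ → (ZMod q)ˣ)
    (h : ∀ (k : ℕ) (a : Fin k → (ZMod q)ˣ), Tendsto (fun U => MM H (fun j => σ (a j)) U - MM H a U) atTop (𝓝 0))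
    {Φ : ((ZMod q)ˣ → ℝ) → ℝ} (hΦ : Continuous Φ) : Tendsto (DM H σ Φ) atTop (𝓝 0) := by
  obtain ⟨B, hB0, hB⟩ := EA_bd hG
  rw [Metric.tendsto_atTop]
  intro ε hε
  obtain ⟨P, hP⟩ := approx hB0 Φ hΦ (ε / 4) (by positivity)
  obtain ⟨hPc, hPt⟩ := DM_poly σ h (eval_mem P)
  obtain ⟨U₀, hU₀⟩ := (Metric.tendsto_atTop.1 hPt) (ε / 4) (by positivity)
  refine ⟨max U₀ 1, fun U hU => ?_⟩
  have hU1 : 1 ≤ U := (le_max_right _ _).trans hU
  have hU0 : 0 < U := by linarith
  have h1 := hU₀ U ((le_max_left _ _).trans hU)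
  rw [Real.dist_eq, sub_zero] at h1 ⊢
  have h2 : DM H σ Φ U - DM H σ (fun x => MvPolynomial.eval x P) U = (1 / U) * ∫ u in (0 : ℝ)..U,
      ((Φ (fun a => EA H (σ a) u) - Φ (fun a => EA H a u)) -
        (MvPolynomial.eval (fun a => EA H (σ a) u) P - MvPolynomial.eval (fun a => EA H a u) P)) := by
    unfold DM
    rw [← mul_sub, ← intervalIntegral.integral_sub ((DM_cont hΦ H σ).intervalIntegrable _ _)
      ((DM_cont hPc H σ).intervalIntegrable _ _)]
  have h3 : ‖∫ u in (0 : ℝ)..U, ((Φ (fun a => EA H (σ a) u) - Φ (fun a => EA H a u)) -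
        (MvPolynomial.eval (fun a => EA H (σ a) u) P - MvPolynomial.eval (fun a => EA H a u) P))‖ ≤
        (ε / 2) * |U - 0| := by
    refine intervalIntegral.norm_integral_le_of_norm_le_const fun u hu => ?_
    rw [uIoc_of_le hU0.le] at hu
    have h4 := hP (fun a => EA H (σ a) u) (fun a => hB _ u hu.1.le)
    have h5 := hP (fun a => EA H a u) (fun a => hB _ u hu.1.le)
    rw [Real.norm_eq_abs]
    rw [abs_lt] at h4 h5
    rw [abs_le]
    constructor <;> linarith
  rw [sub_zero, abs_of_pos hU0] at h3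
  have h6 : |DM H σ Φ U - DM H σ (fun x => MvPolynomial.eval x P) U| ≤ ε / 2 := by
    rw [h2, abs_mul, abs_of_pos (by positivity : (0 : ℝ) < 1 / U)]
    calc 1 / U * |_| ≤ 1 / U * ((ε / 2) * U) := mul_le_mul_of_nonneg_left h3 (by positivity)
      _ = ε / 2 := by field_simp
  have h7 : |DM H σ Φ U| ≤ |DM H σ Φ U - DM H σ (fun x => MvPolynomial.eval x P) U| +
      |DM H σ (fun x => MvPolynomial.eval x P) U| := by
    have := abs_add_le (DM H σ Φ U - DM H σ (fun x => MvPolynomial.eval x P) U) (DM H σ (fun x => MvPolynomial.eval x P) U)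
    rwa [sub_add_cancel] at this
  linarith

end Pool.Agent.Q253.LC
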