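import Pool.Agent.Q253.LC.C5

set_option autoImplicit false

/-! # Project LC: invariance of the law, central zeros, common zeros, inversion, linear independence -/

namespace Pool.Agent.Q253.LC

open MeasureTheory Complex Filter Topology Set
open scoped ComplexConjugate
open DirichletCharacter (LFunction completedLFunction)
open Pool.Agent.Q253.LQ (GRHc mc EC)
open Pool.Agent.Q253.CP (chH mem_chH one_mem_chH sum_chH half_re1 half_im1 half_ne1 ordNat_iff strip_line)

variable {q : ℕ} [NeZero q] {H : Subgroup (ZMod q)ˣ}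

/-- the law is invariant -/
def LawInv (H : Subgroup (ZMod q)ˣ) : Prop :=
  ∀ Φ : ((ZMod q)ˣ → ℝ) → ℝ, Continuous Φ → ∀ b : (ZMod q)ˣ, Tendsto (DM H (fun a => b * a) Φ) atTop (𝓝 0)

theorem main_law : ((∀ χ ∈ chH H, GRHc χ) ∧ ∀ k, NR H k) ↔ (BA H ∧ LawInv H) := by
  constructor
  · rintro ⟨hG, h⟩
    refine ⟨BA_iff.2 hG, fun Φ hΦ b => law hG _ (fun k a => ?_) hΦ⟩
    exact (Iv_NR hG k).2 (h k) a b
  · rintro ⟨hB, h⟩
    have hG := BA_iff.1 hB
    refine ⟨hG, fun k => (Iv_NR hG k).1 fun a b => ?_⟩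
    have h1 := h (fun x => ∏ j, (-x (a j))) (by fun_prop) b
    refine h1.congr fun U => ?_
    unfold DM MM
    rw [← mul_sub, ← intervalIntegral.integral_sub]
    · exact (continuous_finsetProd _ fun j _ => (EA_cont H (b * a j)).neg).intervalIntegrable _ _
    · exact (continuous_finsetProd _ fun j _ => (EA_cont H (a j)).neg).intervalIntegrable _ _

/-! ## central zeros -/

lemma NR_one : NR H 1 ↔ ∀ χ ∈ chH H, χ ≠ 1 → LFunction χ (1 / 2) ≠ 0 := by
  constructor
  · intro h χ hχ hne h0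
    refine h (fun _ => χ) (fun _ => hχ) (by simpa using hne) ⟨fun _ => 0, by simp, fun l => ?_⟩
    rw [Complex.ofReal_zero, zero_mul, add_zero]
    exact h0
  · rintro h χ hm hne ⟨s, hs, hz⟩
    rw [Fin.prod_univ_one] at hne
    rw [Fin.sum_univ_one] at hs
    have h1 := hz 0
    rw [hs, Complex.ofReal_zero, zero_mul, add_zero] at h1
    exact h (χ 0) (hm 0) hne h1

lemma inv_mem_chH {χ : DirichletCharacter ℂ q} (h : χ ∈ chH H) : χ⁻¹ ∈ chH H := by
  rw [mem_chH] at h ⊢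
  intro u hu
  rw [MulChar.inv_apply_eq_inv', h u hu, inv_one]

/-! ## common zeros -/

lemma NR_two (hG : ∀ χ ∈ chH H, GRHc χ) : NR H 2 ↔ ∀ χ ∈ chH H, ∀ ψ ∈ chH H, χ ≠ ψ →
    ∀ s : ℂ, 0 < s.re → s.re < 1 → ¬ (LFunction χ s = 0 ∧ LFunction ψ s = 0) := by
  constructor
  · rintro h χ hχ ψ hψ hne s h0 h1 ⟨h2, h3⟩
    have h5 := strip_line (hG χ hχ) h0 h1 h2
    have e : s = 1 / 2 + (s.im : ℂ) * I := by
      apply Complex.ext
      · rw [half_re1, h5]
      · rw [half_im1]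
    refine h ![χ, ψ⁻¹] ?_ ?_ ⟨![s.im, -s.im], ?_, ?_⟩
    · rw [Fin.forall_fin_two]
      exact ⟨hχ, inv_mem_chH hψ⟩
    · rw [Fin.prod_univ_two]
      simp only [Matrix.cons_val_zero, Matrix.cons_val_one]
      rw [Ne, mul_inv_eq_one]
      exact hne
    · rw [Fin.sum_univ_two]
      simp
    · rw [Fin.forall_fin_two]
      refine ⟨?_, ?_⟩
      · simp only [Matrix.cons_val_zero]
        rw [← e]
        exact h2
      · simp only [Matrix.cons_val_one, Matrix.cons_val_zero]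
        rw [zero_conj, ← e]
        exact h3
  · rintro h χ hm hne ⟨s, hs, hz⟩
    rw [Fin.prod_univ_two] at hne
    rw [Fin.sum_univ_two] at hs
    have h1 := hz 0
    have h2 := hz 1
    have h3 : s 0 = -s 1 := by linarith
    have h4 : LFunction (χ 1)⁻¹ (1 / 2 + (s 0 : ℂ) * I) = 0 := by
      rw [h3, zero_conj]
      exact h2
    exact h (χ 0) (hm 0) (χ 1)⁻¹ (inv_mem_chH (hm 1)) (fun h5 => hne (by rw [h5, inv_mul_cancel]))
      (1 / 2 + (s 0 : ℂ) * I) (by rw [half_re1]; norm_num) (by rw [half_re1]; norm_num) ⟨h1, h4⟩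

/-! ## inversion -/

lemma wc_inv (χ : DirichletCharacter ℂ q) (γ : ℝ) : wc χ⁻¹ γ = wc χ (-γ) := by
  unfold wc
  rw [Pool.Agent.Q14.LQ.t_SY q χ γ, neg_sq]

lemma TT_inv {k : ℕ} (χ : Fin k → DirichletCharacter ℂ q) :
    TT (fun l => wc (χ l)⁻¹) = TT (fun l => wc (χ l)) := by
  unfold TT
  rw [← Equiv.tsum_eq (Equiv.neg (Fin k → ℝ))]
  refine tsum_congr fun s => ?_
  simp only [Equiv.neg_apply, Pi.neg_apply, wc_inv, neg_neg, Finset.sum_neg_distrib, neg_eq_zero]

lemma cv_inv (χ : DirichletCharacter ℂ q) (a : (ZMod q)ˣ) : cv χ a⁻¹ = cv χ⁻¹ a := by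
  unfold cv
  rw [inv_inv, MulChar.inv_apply_eq_inv']
  have h1 : χ ((a⁻¹ : (ZMod q)ˣ) : ZMod q) * χ (a : ZMod q) = 1 := by
    rw [← map_mul, Units.inv_mul, map_one]
  exact eq_inv_of_mul_eq_one_right h1

lemma LL_inv {k : ℕ} (a : Fin k → (ZMod q)ˣ) : LL H (fun j => (a j)⁻¹) = LL H a := by
  classical
  unfold LL
  refine Finset.sum_nbij' (fun χ j => (χ j)⁻¹) (fun χ j => (χ j)⁻¹) ?_ ?_ ?_ ?_ ?_
  · intro χ hχ
    exact Fintype.mem_piFinset.2 fun j => inv_mem_chH (Fintype.mem_piFinset.1 hχ j)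
  · intro χ hχ
    exact Fintype.mem_piFinset.2 fun j => inv_mem_chH (Fintype.mem_piFinset.1 hχ j)
  · intro χ _
    funext j
    exact inv_inv _
  · intro χ _
    funext j
    exact inv_inv _
  · intro χ _
    simp only [cv_inv, TT_inv]

theorem law_inv (hG : ∀ χ ∈ chH H, GRHc χ) {Φ : ((ZMod q)ˣ → ℝ) → ℝ} (hΦ : Continuous Φ) :
    Tendsto (DM H (fun a => a⁻¹) Φ) atTop (𝓝 0) := by
  refine law hG _ (fun k a => ?_) hΦ
  have h := (MM_tendsto hG (fun j => (a j)⁻¹)).sub (MM_tendsto hG a)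
  rw [LL_inv, sub_self] at h
  have h2 : Tendsto (fun U => (((MM H (fun j => (a j)⁻¹) U : ℝ) : ℂ) - ((MM H a U : ℝ) : ℂ)).re) atTop (𝓝 (0 : ℂ).re) :=
    (Complex.continuous_re.tendsto _).comp h
  refine (h2.congr fun U => ?_)
  rw [Complex.sub_re, Complex.ofReal_re, Complex.ofReal_re]

/-! ## linear independence -/

/-- the ordinates of the zeros with positive ordinate on the critical line, listed over all pairs (character, ordinate), are
linearly independent -/
def LIH (H : Subgroup (ZMod q)ˣ) : Prop :=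
  LinearIndependent ℚ (fun p : {p : DirichletCharacter ℂ q × ℝ //
    p.1 ∈ chH H ∧ 0 < p.2 ∧ LFunction p.1 (1 / 2 + (p.2 : ℂ) * I) = 0} => p.1.2)

theorem NR_of_LI (hL : LIH H) (h0 : ∀ χ ∈ chH H, χ ≠ 1 → LFunction χ (1 / 2) ≠ 0) (k : ℕ) : NR H k := by
  classical
  rintro χ hm hne ⟨s, hs, hz⟩
  apply hne
  have hL2 : LinearIndependent ℤ (fun p : {p : DirichletCharacter ℂ q × ℝ //
      p.1 ∈ chH H ∧ 0 < p.2 ∧ LFunction p.1 (1 / 2 + (p.2 : ℂ) * I) = 0} => p.1.2) := by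
    refine LinearIndependent.restrict_scalars (K := ℚ) (fun a b hab => ?_) hL
    simpa using hab
  -- the index of each entry
  have hp : ∀ l, s l ≠ 0 → ∃ p : {p : DirichletCharacter ℂ q × ℝ //
      p.1 ∈ chH H ∧ 0 < p.2 ∧ LFunction p.1 (1 / 2 + (p.2 : ℂ) * I) = 0},
      p.1.2 = |s l| ∧ p.1.1 = if 0 < s l then χ l else (χ l)⁻¹ := by
    intro l hl
    by_cases h : 0 < s l
    · refine ⟨⟨(χ l, s l), hm l, h, hz l⟩, ?_, ?_⟩
      · show s l = |s l|
        rw [abs_of_pos h]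
      · rw [if_pos h]
    · have h' : s l < 0 := lt_of_le_of_ne (not_lt.1 h) hl
      refine ⟨⟨((χ l)⁻¹, -s l), inv_mem_chH (hm l), by linarith, ?_⟩, ?_, ?_⟩
      · show LFunction (χ l)⁻¹ (1 / 2 + ((-s l : ℝ) : ℂ) * I) = 0
        rw [zero_conj]
        exact hz l
      · show -s l = |s l|
        rw [abs_of_neg h']
      · rw [if_neg h]
  by_cases hall : ∀ l, s l = 0
  · refine Finset.prod_eq_one fun l _ => ?_
    by_contra hne1
    have h1 := hz l
    rw [hall l, Complex.ofReal_zero, zero_mul, add_zero] at h1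
    exact h0 _ (hm l) hne1 h1
  push Not at hall
  obtain ⟨l₀, hl₀⟩ := hall
  obtain ⟨p₀, -⟩ := hp l₀ hl₀
  haveI : Nonempty {p : DirichletCharacter ℂ q × ℝ //
      p.1 ∈ chH H ∧ 0 < p.2 ∧ LFunction p.1 (1 / 2 + (p.2 : ℂ) * I) = 0} := ⟨p₀⟩
  choose! p hp1 hp2 using hp
  set ε : Fin k → ℤ := fun l => if s l = 0 then 0 else if 0 < s l then 1 else -1 with hε
  have hεs : ∀ l, ε l • (p l).1.2 = s l := by
    intro l
    rw [hε]
    simp only
    by_cases h0 : s l = 0
    · rw [if_pos h0, zero_smul, h0]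
    · rw [if_neg h0, hp1 l h0]
      by_cases h : 0 < s l
      · rw [if_pos h, one_smul, abs_of_pos h]
      · have h' : s l < 0 := lt_of_le_of_ne (not_lt.1 h) h0
        rw [if_neg h, abs_of_neg h', neg_smul, one_smul, neg_neg]
  set x := ∑ l, Finsupp.single (p l) (ε l) with hx
  have hx0 : x = 0 := by
    apply (linearIndependent_iff.1 hL2) x
    rw [hx, map_sum]
    refine Eq.trans ?_ hs
    refine Finset.sum_congr rfl fun l _ => ?_
    rw [Finsupp.linearCombination_single, hεs]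
  have key := congrArg (Finsupp.linearCombination ℤ (fun p : {p : DirichletCharacter ℂ q × ℝ //
      p.1 ∈ chH H ∧ 0 < p.2 ∧ LFunction p.1 (1 / 2 + (p.2 : ℂ) * I) = 0} => Additive.ofMul p.1.1)) hx0
  rw [hx, map_sum, map_zero] at key
  have h2 : ∀ l, (Finsupp.linearCombination ℤ (fun p : {p : DirichletCharacter ℂ q × ℝ //
      p.1 ∈ chH H ∧ 0 < p.2 ∧ LFunction p.1 (1 / 2 + (p.2 : ℂ) * I) = 0} => Additive.ofMul p.1.1))
      (Finsupp.single (p l) (ε l)) = Additive.ofMul (χ l) := by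
    intro l
    rw [Finsupp.linearCombination_single, hε]
    simp only
    by_cases h0' : s l = 0
    · rw [if_pos h0', zero_smul]
      have h1 := hz l
      rw [h0', Complex.ofReal_zero, zero_mul, add_zero] at h1
      have h3 : χ l = 1 := by
        by_contra hne1
        exact h0 _ (hm l) hne1 h1
      rw [h3]
      rfl
    · rw [if_neg h0', hp2 l h0']
      by_cases h : 0 < s l
      · rw [if_pos h, if_pos h, one_smul]
      · rw [if_neg h, if_neg h, neg_smul, one_smul, ← ofMul_inv, inv_inv]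
  rw [Finset.sum_congr rfl fun l _ => h2 l, ← ofMul_prod] at key
  exact key

end Pool.Agent.Q253.LC
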