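import Pool.Agent.Q253.LC.C3

set_option autoImplicit false

/-! # Project LC: the mean square of one character and the simplicity of the zeros -/

namespace Pool.Agent.Q253.LC

open MeasureTheory Complex Filter Topology Set
open scoped ComplexConjugate
open DirichletCharacter (LFunction completedLFunction)
open Pool.Agent.Q253.LQ (GRHc mc EC XL mc_one_iff low ne_zI sm_of_le)
open Pool.Agent.Q253.CP (half_re1 half_im1 half_ne1 ordNat_iff strip_line)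

variable {q : ℕ} [NeZero q]

lemma TT_two (w : Fin 2 → ℝ → ℝ) : TT w = ∑' γ : ℝ, w 0 γ * w 1 (-γ) := by
  classical
  unfold TT
  have hinj : Function.Injective (fun γ : ℝ => (![γ, -γ] : Fin 2 → ℝ)) := by
    intro a b hab
    have := congrFun hab 0
    simpa using this
  rw [← hinj.tsum_eq]
  · refine tsum_congr fun γ => ?_
    rw [if_pos (by simp [Fin.sum_univ_two]), Fin.prod_univ_two]
    simp
  · intro s hs
    rw [Function.mem_support] at hs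
    have h1 : ∑ l, s l = 0 := by
      by_contra h
      exact hs (if_neg h)
    rw [Fin.sum_univ_two] at h1
    refine ⟨s 0, ?_⟩
    funext l
    fin_cases l
    · rfl
    · show -s 0 = s 1
      linarith

lemma wc_sq_sm {χ : DirichletCharacter ℂ q} (hG : GRHc χ) : Summable (fun γ : ℝ => wc χ γ ^ 2) := by
  have h1 := wc_sm hG
  have h2 := h1.tendsto_cofinite_zero
  have h3 : ∀ᶠ γ : ℝ in cofinite, wc χ γ ≤ 1 := by
    filter_upwards [h2.eventually (gt_mem_nhds one_pos)] with γ hγ using hγ.le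
  refine Summable.of_norm_bounded_eventually h1 ?_
  filter_upwards [h3] with γ hγ
  rw [Real.norm_of_nonneg (sq_nonneg _), sq]
  exact mul_le_of_le_one_left (wc_nonneg χ γ) hγ

theorem ms_tendsto {χ : DirichletCharacter ℂ q} (hG : GRHc χ) :
    Tendsto (ms χ) atTop (𝓝 (∑' γ : ℝ, wc χ γ ^ 2)) := by
  have h1 := corr_chi ![χ, χ⁻¹] (fun l => by
    fin_cases l
    · exact hG
    · exact (GRH_conj χ).2 hG)
  rw [TT_two] at h1
  have e1 : (∑' γ : ℝ, wc ((![χ, χ⁻¹] : Fin 2 → DirichletCharacter ℂ q) 0) γ *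
      wc ((![χ, χ⁻¹] : Fin 2 → DirichletCharacter ℂ q) 1) (-γ)) = ∑' γ : ℝ, wc χ γ ^ 2 := by
    refine tsum_congr fun γ => ?_
    simp only [Matrix.cons_val_zero, Matrix.cons_val_one]
    have h2 : wc χ⁻¹ (-γ) = wc χ γ := by
      unfold wc
      rw [← Pool.Agent.Q14.LQ.t_SY q χ (-γ), neg_neg, neg_sq]
    rw [h2, sq]
  rw [e1] at h1
  have h3 : Tendsto (fun U => (((1 / U : ℝ) : ℂ) * ∫ u in (0 : ℝ)..U, ∏ l, (-EC ((![χ, χ⁻¹] : Fin 2 → _) l) u)).re) atTop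
      (𝓝 (∑' γ : ℝ, wc χ γ ^ 2)) := by
    have := (Complex.continuous_re.tendsto _).comp h1
    rwa [Complex.ofReal_re] at this
  refine h3.congr fun U => ?_
  unfold ms
  have e2 : ∀ u : ℝ, ∏ l, (-EC ((![χ, χ⁻¹] : Fin 2 → DirichletCharacter ℂ q) l) u) = ((‖EC χ u‖ ^ 2 : ℝ) : ℂ) := by
    intro u
    rw [Fin.prod_univ_two]
    simp only [Matrix.cons_val_zero, Matrix.cons_val_one]
    rw [EC_conj, neg_mul_neg, Complex.mul_conj, Complex.normSq_eq_norm_sq]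
  simp_rw [e2]
  rw [intervalIntegral.integral_ofReal, ← Complex.ofReal_mul, Complex.ofReal_re]

/-- the critical value -/
noncomputable def VC (χ : DirichletCharacter ℂ q) : ℝ :=
  2 * (logDeriv (XL χ) (3 / 2) - deriv (logDeriv (XL χ)) (3 / 2)).re

lemma norm_one_sub (γ : ℝ) : ‖(1 : ℂ) - γ * I‖ ^ 2 = 1 + γ ^ 2 := by
  rw [← Complex.normSq_eq_norm_sq, Complex.normSq_apply]
  simp
  ring

/-- the derivative of the logarithmic derivative -/
lemma deriv_log {χ : DirichletCharacter ℂ q} (hG : GRHc χ) :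
    HasDerivAt (logDeriv (XL χ)) (∑' γ : ℝ, (mc χ γ : ℂ) * (-1 / (1 - γ * I) ^ 2)) (3 / 2) := by
  obtain ⟨hs, -, hd⟩ := Pool.Agent.Q151.LQ.t_PF q χ hG
  rw [hasDerivAt_iff_tendsto_slope]
  -- the difference quotients
  have hq : ∀ᶠ z : ℂ in 𝓝[≠] (3 / 2), slope (logDeriv (XL χ)) (3 / 2) z =
      ∑' γ : ℝ, (mc χ γ : ℂ) * (-1 / ((z - 1 / 2 - γ * I) * (1 - γ * I))) := by
    have h1 : {z : ℂ | 1 / 2 < z.re} ∈ 𝓝 (3 / 2 : ℂ) :=
      (isOpen_lt continuous_const Complex.continuous_re).mem_nhds (by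
        show (1 / 2 : ℝ) < (3 / 2 : ℂ).re
        norm_num)
    filter_upwards [nhdsWithin_le_nhds h1, self_mem_nhdsWithin] with z hz hne
    have hz' : (1 / 2 : ℝ) < z.re := hz
    have hz1 : 0 < (z - 1 / 2).re := by
      rw [Complex.sub_re]
      have : ((1 : ℂ) / 2).re = 1 / 2 := by norm_num
      rw [this]
      linarith
    have h2 := hd (z - 1 / 2) 1 hz1 (by norm_num)
    have e1 : (1 / 2 : ℂ) + (z - 1 / 2) = z := by ring
    have e2 : (1 / 2 : ℂ) + 1 = 3 / 2 := by norm_num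
    rw [e1, e2] at h2
    have hzne : z - 3 / 2 ≠ 0 := sub_ne_zero.2 hne
    rw [slope_def_field, h2, div_eq_iff hzne, ← tsum_mul_right]
    refine tsum_congr fun γ => ?_
    have a1 := ne_zI hz1 γ
    have a2 : (1 : ℂ) - γ * I ≠ 0 := ne_zI (z := 1) (by norm_num) γ
    have e4 : ∀ A B : ℂ, A ≠ 0 → B ≠ 0 → 1 / A - 1 / B = -1 / (A * B) * (A - B) := by
      intro A B hA hB
      field_simp
      ring
    rw [e4 _ _ a1 a2]
    ring
  refine Tendsto.congr' (hq.mono fun z hz => hz.symm) ?_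
  refine tendsto_tsum_of_dominated_convergence (bound := fun γ : ℝ => 2 * ((mc χ γ : ℝ) / (1 + γ ^ 2))) (hs.mul_left 2)
    (fun γ => ?_) ?_
  · have a2 : (1 : ℂ) - γ * I ≠ 0 := ne_zI (z := 1) (by norm_num) γ
    have h3 : Tendsto (fun z : ℂ => (mc χ γ : ℂ) * (-1 / ((z - 1 / 2 - γ * I) * (1 - γ * I)))) (𝓝 (3 / 2))
        (𝓝 ((mc χ γ : ℂ) * (-1 / ((3 / 2 - 1 / 2 - γ * I) * (1 - γ * I))))) := by
      have hc : ContinuousAt (fun z : ℂ => (mc χ γ : ℂ) * (-1 / ((z - 1 / 2 - γ * I) * (1 - γ * I)))) (3 / 2) := by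
        have a3 : ((3 / 2 : ℂ) - 1 / 2 - γ * I) * (1 - γ * I) ≠ 0 := by
          have : (3 / 2 : ℂ) - 1 / 2 = 1 := by norm_num
          rw [this]
          exact mul_ne_zero a2 a2
        exact (continuousAt_const.mul (continuousAt_const.div (by fun_prop) a3))
      exact hc
    have e : (3 / 2 - 1 / 2 - γ * I) * (1 - γ * I) = (1 - γ * I : ℂ) ^ 2 := by ring
    rw [e] at h3
    exact h3.mono_left nhdsWithin_le_nhds
  · have h4 : Metric.ball (3 / 2 : ℂ) (1 / 2) ∈ 𝓝[≠] (3 / 2 : ℂ) :=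
      nhdsWithin_le_nhds (Metric.ball_mem_nhds _ (by norm_num))
    filter_upwards [h4] with z hz γ
    rw [Metric.mem_ball, dist_eq_norm] at hz
    have hn : 1 ≤ ‖(1 : ℂ) - γ * I‖ := by
      have h5 := abs_re_le_norm ((1 : ℂ) - γ * I)
      simpa using h5
    have h6 : ‖(1 : ℂ) - γ * I‖ / 2 ≤ ‖z - 1 / 2 - γ * I‖ := by
      have h7 : ‖(1 : ℂ) - γ * I‖ ≤ ‖z - 1 / 2 - γ * I‖ + ‖z - 3 / 2‖ := by
        have e : (1 : ℂ) - γ * I = (z - 1 / 2 - γ * I) - (z - 3 / 2) := by ring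
        rw [e]
        exact norm_sub_le _ _
      linarith
    rw [norm_mul, norm_div, norm_neg, norm_one, norm_mul, Complex.norm_natCast]
    have h8 : (1 + γ ^ 2) / 2 ≤ ‖z - 1 / 2 - γ * I‖ * ‖(1 : ℂ) - γ * I‖ := by
      rw [← norm_one_sub γ]
      nlinarith
    have hp : (0 : ℝ) < (1 + γ ^ 2) / 2 := by positivity
    calc (mc χ γ : ℝ) * (1 / (‖z - 1 / 2 - γ * I‖ * ‖(1 : ℂ) - γ * I‖)) ≤ (mc χ γ : ℝ) * (1 / ((1 + γ ^ 2) / 2)) :=
          mul_le_mul_of_nonneg_left (one_div_le_one_div_of_le hp h8) (Nat.cast_nonneg _)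
      _ = 2 * ((mc χ γ : ℝ) / (1 + γ ^ 2)) := by field_simp

theorem VC_eq {χ : DirichletCharacter ℂ q} (hG : GRHc χ) :
    VC χ = ∑' γ : ℝ, (mc χ γ : ℝ) * (2 / (1 + γ ^ 2)) ^ 2 := by
  obtain ⟨hs, hr, -⟩ := Pool.Agent.Q151.LQ.t_PF q χ hG
  have h1 := hr 1 (by norm_num)
  have e2 : (1 / 2 : ℂ) + 1 = 3 / 2 := by norm_num
  rw [e2] at h1
  have hre1 : ∀ γ : ℝ, (1 / ((1 : ℂ) - γ * I)).re = 1 / (1 + γ ^ 2) := by
    intro γ
    rw [one_div, Complex.inv_re, Complex.normSq_eq_norm_sq, norm_one_sub]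
    simp
  have hre2 : ∀ γ : ℝ, (-1 / ((1 : ℂ) - γ * I) ^ 2).re = (γ ^ 2 - 1) / (1 + γ ^ 2) ^ 2 := by
    intro γ
    have e : (-1 / ((1 : ℂ) - γ * I) ^ 2) = -(1 + γ * I) ^ 2 / (((1 + γ ^ 2) ^ 2 : ℝ) : ℂ) := by
      have a2 : (1 : ℂ) - γ * I ≠ 0 := ne_zI (z := 1) (by norm_num) γ
      have a3 : (((1 + γ ^ 2) ^ 2 : ℝ) : ℂ) ≠ 0 := by
        have : (0 : ℝ) < (1 + γ ^ 2) ^ 2 := by positivity
        exact_mod_cast this.ne'
      rw [div_eq_div_iff (pow_ne_zero 2 a2) a3]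
      have e3 : ((1 : ℂ) - γ * I) * (1 + γ * I) = 1 + (γ : ℂ) ^ 2 := by
        ring_nf
        rw [I_sq]
        ring
      push_cast
      rw [← e3]
      ring
    rw [e, Complex.div_ofReal_re]
    congr 1
    have e4 : -(1 + (γ : ℂ) * I) ^ 2 = ((γ ^ 2 - 1 : ℝ) : ℂ) + ((-2 * γ : ℝ) : ℂ) * I := by
      push_cast
      ring_nf
      rw [I_sq]
      ring
    rw [e4, Complex.add_re, Complex.ofReal_re, Complex.re_ofReal_mul, I_re, mul_zero, add_zero]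
  have hsd : Summable (fun γ : ℝ => (mc χ γ : ℂ) * (-1 / (1 - γ * I) ^ 2)) := by
    refine Summable.of_norm_bounded hs fun γ => ?_
    rw [norm_mul, Complex.norm_natCast, norm_div, norm_neg, norm_one, norm_pow, norm_one_sub]
    apply le_of_eq
    ring
  have h2 : (deriv (logDeriv (XL χ)) (3 / 2)).re = ∑' γ : ℝ, (mc χ γ : ℝ) * ((γ ^ 2 - 1) / (1 + γ ^ 2) ^ 2) := by
    rw [(deriv_log hG).deriv, Complex.re_tsum hsd]
    refine tsum_congr fun γ => ?_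
    rw [← hre2 γ, ← Complex.ofReal_natCast, re_ofReal_mul]
  have hsd2 : Summable (fun γ : ℝ => (mc χ γ : ℝ) * ((γ ^ 2 - 1) / (1 + γ ^ 2) ^ 2)) := by
    have h3 := (Complex.hasSum_re hsd.hasSum).summable
    refine h3.congr fun γ => ?_
    rw [← hre2 γ, ← Complex.ofReal_natCast, re_ofReal_mul]
  have hs1 : Summable (fun γ : ℝ => (mc χ γ : ℝ) * (1 / (1 + γ ^ 2))) := hs.congr fun γ => by ring
  unfold VC
  rw [Complex.sub_re, h1, h2]
  simp_rw [hre1]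
  rw [← hs1.tsum_sub hsd2, ← tsum_mul_left]
  refine tsum_congr fun γ => ?_
  have : (1 + γ ^ 2 : ℝ) ≠ 0 := by positivity
  field_simp
  ring

lemma V_sm {χ : DirichletCharacter ℂ q} (hG : GRHc χ) : Summable fun γ : ℝ => (mc χ γ : ℝ) * (2 / (1 + γ ^ 2)) ^ 2 := by
  refine Summable.of_nonneg_of_le (fun γ => by positivity) (fun γ => ?_) ((wc_sm hG).mul_left 2)
  unfold wc
  have h1 : 2 / (1 + γ ^ 2) ≤ 2 := by
    rw [div_le_iff₀ (by positivity)]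
    nlinarith [sq_nonneg γ]
  have h2 : 0 ≤ 2 / (1 + γ ^ 2) := by positivity
  calc (mc χ γ : ℝ) * (2 / (1 + γ ^ 2)) ^ 2 = (mc χ γ : ℝ) * (2 / (1 + γ ^ 2)) * (2 / (1 + γ ^ 2)) := by ring
    _ ≤ (mc χ γ : ℝ) * (2 / (1 + γ ^ 2)) * 2 := mul_le_mul_of_nonneg_left h1 (by positivity)
    _ = _ := by ring

/-- the excess -/
noncomputable def XS (χ : DirichletCharacter ℂ q) : ℝ :=
  ∑' γ : ℝ, ((mc χ γ : ℝ) * ((mc χ γ : ℝ) - 1)) * (2 / (1 + γ ^ 2)) ^ 2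

lemma XS_term_nonneg (χ : DirichletCharacter ℂ q) (γ : ℝ) :
    0 ≤ ((mc χ γ : ℝ) * ((mc χ γ : ℝ) - 1)) * (2 / (1 + γ ^ 2)) ^ 2 := by
  refine mul_nonneg ?_ (sq_nonneg _)
  rcases Nat.eq_zero_or_pos (mc χ γ) with h | h
  · rw [h]; simp
  · have : (1 : ℝ) ≤ mc χ γ := by exact_mod_cast h
    exact mul_nonneg (by linarith) (by linarith)

lemma XS_sm {χ : DirichletCharacter ℂ q} (hG : GRHc χ) :
    Summable fun γ : ℝ => ((mc χ γ : ℝ) * ((mc χ γ : ℝ) - 1)) * (2 / (1 + γ ^ 2)) ^ 2 := by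
  refine ((wc_sq_sm hG).sub (V_sm hG)).congr fun γ => ?_
  unfold wc
  ring

theorem lim_eq {χ : DirichletCharacter ℂ q} (hG : GRHc χ) : ∑' γ : ℝ, wc χ γ ^ 2 = VC χ + XS χ := by
  rw [VC_eq hG]
  unfold XS
  rw [← (V_sm hG).tsum_add (XS_sm hG)]
  refine tsum_congr fun γ => ?_
  unfold wc
  ring

lemma XS_zero {χ : DirichletCharacter ℂ q} (hG : GRHc χ) : XS χ = 0 ↔ ∀ γ : ℝ, mc χ γ ≤ 1 := by
  unfold XS
  constructor
  · intro h γ
    have h1 := (XS_sm hG).le_tsum γ fun j _ => XS_term_nonneg χ j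
    rw [h] at h1
    by_contra hcon
    have h2 : (2 : ℝ) ≤ mc χ γ := by
      have : 2 ≤ mc χ γ := by omega
      exact_mod_cast this
    have h3 : 0 < ((mc χ γ : ℝ) * ((mc χ γ : ℝ) - 1)) * (2 / (1 + γ ^ 2)) ^ 2 :=
      mul_pos (mul_pos (by linarith) (by linarith)) (by positivity)
    linarith
  · intro h
    have h1 : ∀ γ : ℝ, ((mc χ γ : ℝ) * ((mc χ γ : ℝ) - 1)) * (2 / (1 + γ ^ 2)) ^ 2 = 0 := by
      intro γ
      have h2 := h γ
      interval_cases h3 : mc χ γ <;> simp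
    rw [tsum_congr h1, tsum_zero]

lemma XS_nonneg (χ : DirichletCharacter ℂ q) : 0 ≤ XS χ := tsum_nonneg (XS_term_nonneg χ)

/-- all zeros in the strip are simple -/
def SimpleX (χ : DirichletCharacter ℂ q) : Prop :=
  ∀ s : ℂ, 0 < s.re → s.re < 1 → LFunction χ s = 0 → deriv (LFunction χ) s ≠ 0

lemma SimpleX_iff {χ : DirichletCharacter ℂ q} (hG : GRHc χ) : SimpleX χ ↔ ∀ γ : ℝ, mc χ γ ≤ 1 := by
  constructor
  · intro h γ
    by_cases hz : LFunction χ (1 / 2 + (γ : ℂ) * I) = 0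
    · exact (mc_one_iff χ hz).2 (h _ (by rw [half_re1]; norm_num) (by rw [half_re1]; norm_num) hz)
    · have : mc χ γ = 0 := by
        by_contra h2
        exact hz ((ordNat_iff χ (half_ne1 γ)).1 h2)
      omega
  · intro h s h0 h1 hz
    have h5 := strip_line hG h0 h1 hz
    have e : s = 1 / 2 + (s.im : ℂ) * I := by
      apply Complex.ext
      · rw [half_re1, h5]
      · rw [half_im1]
    rw [e]
    exact (mc_one_iff χ (by rw [← e]; exact hz)).1 (h _)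

theorem main_ms (χ : DirichletCharacter ℂ q) :
    ((GRHc χ ∧ SimpleX χ) ↔ ∀ ε : ℝ, 0 < ε → ∀ᶠ U : ℝ in atTop, ms χ U ≤ VC χ + ε) ∧
    ((GRHc χ ∧ SimpleX χ) ↔ Tendsto (ms χ) atTop (𝓝 (VC χ))) := by
  have hA : (GRHc χ ∧ SimpleX χ) → Tendsto (ms χ) atTop (𝓝 (VC χ)) := by
    rintro ⟨hG, hS⟩
    have h1 := ms_tendsto hG
    rwa [lim_eq hG, (XS_zero hG).2 ((SimpleX_iff hG).1 hS), add_zero] at h1
  have hB : Tendsto (ms χ) atTop (𝓝 (VC χ)) → ∀ ε : ℝ, 0 < ε → ∀ᶠ U : ℝ in atTop, ms χ U ≤ VC χ + ε := by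
    intro h ε hε
    filter_upwards [h.eventually (gt_mem_nhds (show VC χ < VC χ + ε by linarith))] with U hU using hU.le
  have hC : (∀ ε : ℝ, 0 < ε → ∀ᶠ U : ℝ in atTop, ms χ U ≤ VC χ + ε) → (GRHc χ ∧ SimpleX χ) := by
    intro h
    have hG : GRHc χ := (ms_iff χ).2 ⟨_, h 1 one_pos⟩
    refine ⟨hG, (SimpleX_iff hG).2 ((XS_zero hG).1 ?_)⟩
    have h1 := ms_tendsto hG
    rw [lim_eq hG] at h1
    refine le_antisymm ?_ (XS_nonneg χ)
    refine le_of_forall_pos_le_add fun ε hε => ?_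
    have h2 := le_of_tendsto h1 (h ε hε)
    linarith
  exact ⟨⟨fun h => hB (hA h), hC⟩, ⟨hA, fun h => hC (hB h)⟩⟩

/-- quantitative form -/
theorem quant (χ : DirichletCharacter ℂ q) {δ : ℝ} (h : ∀ ε : ℝ, 0 < ε → ∀ᶠ U : ℝ in atTop, ms χ U ≤ VC χ + δ + ε) :
    GRHc χ ∧ XS χ ≤ δ ∧ ∀ γ : ℝ, ((mc χ γ : ℝ) * ((mc χ γ : ℝ) - 1)) * (2 / (1 + γ ^ 2)) ^ 2 ≤ δ := by
  have hG : GRHc χ := (ms_iff χ).2 ⟨_, h 1 one_pos⟩
  have h1 := ms_tendsto hG
  rw [lim_eq hG] at h1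
  have h3 : XS χ ≤ δ := by
    refine le_of_forall_pos_le_add fun ε hε => ?_
    have h2 := le_of_tendsto h1 (h ε hε)
    linarith
  exact ⟨hG, h3, fun γ => ((XS_sm hG).le_tsum γ fun j _ => XS_term_nonneg χ j).trans h3⟩

end Pool.Agent.Q253.LC
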